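import Mathlib

set_option autoImplicit false

/-! From mixed moments to characteristic functions. -/

namespace Pool.Agent.H18.GA
open Finset

/-- the deviation from the moments of the complex normal law -/
noncomputable def dv (p q j : ℕ) (S : ℂ) (V : ℝ) : ℂ :=
  S ^ p * (starRingEnd ℂ) S ^ q * (V : ℂ) ^ j - (if p = q then (Nat.factorial p : ℂ) * (V : ℂ) ^ (p + j) else 0)

/-- the partial sums of the exponential series -/
noncomputable def ps (n : ℕ) (z : ℂ) : ℂ := ∑ l ∈ range n, z ^ l / (Nat.factorial l : ℂ)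

lemma ps_succ (n : ℕ) (z : ℂ) : ps (n + 1) z = ps n z + z ^ n / (Nat.factorial n : ℂ) := sum_range_succ _ _

lemma ps_deriv (n : ℕ) (x : ℝ) : HasDerivAt (fun x : ℝ => ps (n + 1) (Complex.I * x)) (Complex.I * ps n (Complex.I * x)) x := by
  induction n with
  | zero =>
    have e : (fun x : ℝ => ps (0 + 1) (Complex.I * x)) = fun _ => 1 := by
      funext x
      simp [ps]
    rw [e]
    have e2 : Complex.I * ps 0 (Complex.I * x) = 0 := by simp [ps]
    rw [e2]
    exact hasDerivAt_const x 1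
  | succ n ih =>
    have e : (fun x : ℝ => ps (n + 1 + 1) (Complex.I * x)) = fun x : ℝ => ps (n + 1) (Complex.I * x) + (Complex.I * x) ^ (n + 1) / (Nat.factorial (n + 1) : ℂ) := by
      funext x
      exact ps_succ _ _
    rw [e]
    have h1 : HasDerivAt (fun x : ℝ => Complex.I * (x : ℂ)) (Complex.I * 1) x := (Complex.ofRealCLM.hasDerivAt (x := x)).const_mul Complex.I
    have h2 := ((h1.pow (n + 1)).div_const (Nat.factorial (n + 1) : ℂ))
    have h3 := ih.add h2
    have e3 : Complex.I * ps n (Complex.I * x) + ((n + 1 : ℕ) : ℂ) * (Complex.I * x) ^ (n + 1 - 1) * (Complex.I * 1) / (Nat.factorial (n + 1) : ℂ) = Complex.I * ps (n + 1) (Complex.I * x) := by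
      rw [ps_succ, Nat.factorial_succ]
      have h4 : (Nat.factorial n : ℂ) ≠ 0 := by exact_mod_cast Nat.factorial_ne_zero n
      have h5 : ((n : ℂ) + 1) ≠ 0 := by exact_mod_cast Nat.succ_ne_zero n
      push_cast
      field_simp
    rw [← e3]
    exact h3

/-- the remainder of the exponential series on the imaginary axis -/
lemma rem_nonneg (n : ℕ) (x : ℝ) (hx : 0 ≤ x) : ‖Complex.exp (Complex.I * x) - ps n (Complex.I * x)‖ ≤ x ^ n / Nat.factorial n := by
  induction n generalizing x with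
  | zero =>
    have e : ps 0 (Complex.I * x) = 0 := by simp [ps]
    rw [e, sub_zero, Complex.norm_exp_I_mul_ofReal]
    simp
  | succ n ih =>
    have hd : ∀ y : ℝ, HasDerivAt (fun x : ℝ => Complex.exp (Complex.I * x) - ps (n + 1) (Complex.I * x)) (Complex.I * Complex.exp (Complex.I * y) - Complex.I * ps n (Complex.I * y)) y := by
      intro y
      have h1 : HasDerivAt (fun x : ℝ => Complex.I * (x : ℂ)) (Complex.I * 1) y := (Complex.ofRealCLM.hasDerivAt (x := y)).const_mul Complex.I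
      have h2 := h1.cexp
      rw [mul_one, mul_comm] at h2
      exact h2.sub (ps_deriv n y)
    have hB : ∀ y : ℝ, HasDerivAt (fun x : ℝ => x ^ (n + 1) / (Nat.factorial (n + 1) : ℝ)) (y ^ n / Nat.factorial n) y := by
      intro y
      have h1 := (hasDerivAt_pow (n + 1) y).div_const (Nat.factorial (n + 1) : ℝ)
      have e3 : ((n + 1 : ℕ) : ℝ) * y ^ (n + 1 - 1) / (Nat.factorial (n + 1) : ℝ) = y ^ n / Nat.factorial n := by
        rw [Nat.factorial_succ, Nat.add_sub_cancel]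
        have h4 : (Nat.factorial n : ℝ) ≠ 0 := by exact_mod_cast Nat.factorial_ne_zero n
        push_cast
        field_simp
      rw [← e3]
      exact h1
    have h := image_norm_le_of_norm_deriv_right_le_deriv_boundary (a := 0) (b := x)
      (f := fun x : ℝ => Complex.exp (Complex.I * x) - ps (n + 1) (Complex.I * x))
      (f' := fun y : ℝ => Complex.I * Complex.exp (Complex.I * y) - Complex.I * ps n (Complex.I * y))
      (B := fun x : ℝ => x ^ (n + 1) / (Nat.factorial (n + 1) : ℝ)) (B' := fun y => y ^ n / Nat.factorial n)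
      (fun y _ => (hd y).continuousAt.continuousWithinAt) (fun y _ => (hd y).hasDerivWithinAt) (by
        have e4 : ps (n + 1) (Complex.I * ((0 : ℝ) : ℂ)) = 1 := by
          unfold ps
          rw [sum_range_succ']
          simp
        show ‖Complex.exp (Complex.I * ((0 : ℝ) : ℂ)) - ps (n + 1) (Complex.I * ((0 : ℝ) : ℂ))‖ ≤ _
        rw [e4]
        simp) hB (by
        intro y hy
        rw [← mul_sub, norm_mul, Complex.norm_I, one_mul]
        exact ih y hy.1)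
    exact h ⟨hx, le_refl x⟩

lemma ps_conj (n : ℕ) (z : ℂ) : ps n ((starRingEnd ℂ) z) = (starRingEnd ℂ) (ps n z) := by
  unfold ps
  rw [map_sum]
  apply sum_congr rfl
  intro l _
  rw [map_div₀, map_pow, Complex.conj_natCast]

lemma rem_all (n : ℕ) (x : ℝ) : ‖Complex.exp (Complex.I * x) - ps n (Complex.I * x)‖ ≤ |x| ^ n / Nat.factorial n := by
  rcases le_total 0 x with h | h
  · rw [abs_of_nonneg h]
    exact rem_nonneg n x h
  · rw [abs_of_nonpos h]
    have h1 := rem_nonneg n (-x) (by linarith)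
    have e : Complex.I * ((-x : ℝ) : ℂ) = (starRingEnd ℂ) (Complex.I * x) := by
      rw [map_mul, Complex.conj_I, Complex.conj_ofReal]
      push_cast
      ring
    rw [e, Complex.exp_conj, ps_conj, ← map_sub, RCLike.norm_conj] at h1
    exact h1

lemma ps_norm (n : ℕ) (z : ℂ) : ‖ps n z‖ ≤ ∑ l ∈ range n, ‖z‖ ^ l := by
  unfold ps
  refine (norm_sum_le _ _).trans (sum_le_sum fun l _ => ?_)
  rw [norm_div, norm_pow, Complex.norm_natCast]
  apply div_le_self (by positivity)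
  exact_mod_cast Nat.one_le_iff_ne_zero.2 (Nat.factorial_ne_zero l)

lemma ps_norm' (n : ℕ) (z : ℂ) : ‖ps n z‖ ≤ n * (1 + ‖z‖ ^ n) := by
  refine (ps_norm n z).trans ?_
  have h : ∀ l ∈ range n, ‖z‖ ^ l ≤ 1 + ‖z‖ ^ n := by
    intro l hl
    rw [mem_range] at hl
    have h0 := norm_nonneg z
    rcases le_total ‖z‖ 1 with h | h
    · have h1 : ‖z‖ ^ l ≤ 1 := pow_le_one₀ h0 h
      have h2 : 0 ≤ ‖z‖ ^ n := by positivity
      linarith
    · have h1 : ‖z‖ ^ l ≤ ‖z‖ ^ n := pow_le_pow_right₀ h hl.le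
      linarith
  refine (sum_le_card_nsmul _ _ _ h).trans (le_of_eq ?_)
  rw [card_range, nsmul_eq_mul]

/-- the reindexing of the even terms -/
lemma even_terms (k : ℕ) (g : ℕ → ℕ → ℂ) : ∑ l ∈ range (2 * k), ∑ i ∈ range (l + 1), (if i = l - i then g l i else 0) = ∑ i ∈ range k, g (2 * i) i := by
  induction k with
  | zero => simp
  | succ k ih =>
    have e : 2 * (k + 1) = 2 * k + 1 + 1 := by ring
    rw [e, sum_range_succ, sum_range_succ, ih, sum_range_succ (fun i => g (2 * i) i) k, add_assoc]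
    congr 1
    have h1 : ∑ i ∈ range (2 * k + 1), (if i = 2 * k - i then g (2 * k) i else 0) = g (2 * k) k := by
      rw [sum_eq_single k]
      · rw [if_pos (by omega)]
      · intro i hi hik
        rw [mem_range] at hi
        rw [if_neg (by omega)]
      · intro h
        exact absurd (mem_range.2 (by omega)) h
    have h2 : ∑ i ∈ range (2 * k + 1 + 1), (if i = 2 * k + 1 - i then g (2 * k + 1) i else 0) = 0 := by
      apply sum_eq_zero
      intro i hi
      rw [mem_range] at hi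
      rw [if_neg (by omega)]
    rw [h1, h2, add_zero]

/-- the coefficients -/
noncomputable def cf3 (z : ℂ) (s : ℝ) (l i n : ℕ) : ℂ :=
  Complex.I ^ l / (Nat.factorial l : ℂ) * (1 / 2) ^ l * (l.choose i : ℂ) * ((starRingEnd ℂ) z ^ i * z ^ (l - i)) * ((Complex.I * s) ^ n / (Nat.factorial n : ℂ))

/-- the expansion -/
lemma expansion (k n : ℕ) (z : ℂ) (s : ℝ) (S : ℂ) (V : ℝ) :
    ps (2 * k) (Complex.I * ((((starRingEnd ℂ) z * S).re : ℝ) : ℂ)) * ps n (Complex.I * s * V) - ps k (-((‖z‖ ^ 2 / 4 : ℝ) : ℂ) * V) * ps n (Complex.I * s * V) =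
      ∑ l ∈ range (2 * k), ∑ i ∈ range (l + 1), ∑ m ∈ range n, cf3 z s l i m * dv i (l - i) m S V := by
  have hV : ps n (Complex.I * s * V) = ∑ m ∈ range n, (Complex.I * s) ^ m / (Nat.factorial m : ℂ) * (V : ℂ) ^ m := by
    unfold ps
    apply sum_congr rfl
    intro m _
    rw [mul_pow]
    ring
  have hx : ((((starRingEnd ℂ) z * S).re : ℝ) : ℂ) = (1 / 2) * ((starRingEnd ℂ) z * S + z * (starRingEnd ℂ) S) := by
    rw [Complex.re_eq_add_conj, map_mul, Complex.conj_conj]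
    ring
  have h1 : ps (2 * k) (Complex.I * ((((starRingEnd ℂ) z * S).re : ℝ) : ℂ)) * ps n (Complex.I * s * V) =
      ∑ l ∈ range (2 * k), ∑ i ∈ range (l + 1), ∑ m ∈ range n, cf3 z s l i m * (S ^ i * (starRingEnd ℂ) S ^ (l - i) * (V : ℂ) ^ m) := by
    rw [hV]
    unfold ps
    rw [sum_mul]
    apply sum_congr rfl
    intro l _
    have e : (Complex.I * ((((starRingEnd ℂ) z * S).re : ℝ) : ℂ)) ^ l / (Nat.factorial l : ℂ) =
        ∑ i ∈ range (l + 1), Complex.I ^ l / (Nat.factorial l : ℂ) * (1 / 2) ^ l * (l.choose i : ℂ) * ((starRingEnd ℂ) z ^ i * z ^ (l - i)) * (S ^ i * (starRingEnd ℂ) S ^ (l - i)) := by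
      rw [hx, mul_pow, mul_pow, add_pow, mul_sum, mul_sum, sum_div]
      apply sum_congr rfl
      intro i _
      rw [mul_pow, mul_pow]
      ring
    rw [e, sum_mul]
    apply sum_congr rfl
    intro i _
    rw [mul_sum]
    apply sum_congr rfl
    intro m _
    unfold cf3
    ring
  have h2 : ps k (-((‖z‖ ^ 2 / 4 : ℝ) : ℂ) * V) * ps n (Complex.I * s * V) =
      ∑ l ∈ range (2 * k), ∑ i ∈ range (l + 1), ∑ m ∈ range n, cf3 z s l i m * (if i = l - i then (Nat.factorial i : ℂ) * (V : ℂ) ^ (i + m) else 0) := by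
    have e1 : ∀ l ∈ range (2 * k), ∑ i ∈ range (l + 1), ∑ m ∈ range n, cf3 z s l i m * (if i = l - i then (Nat.factorial i : ℂ) * (V : ℂ) ^ (i + m) else 0) =
        ∑ i ∈ range (l + 1), (if i = l - i then ∑ m ∈ range n, cf3 z s l i m * ((Nat.factorial i : ℂ) * (V : ℂ) ^ (i + m)) else 0) := by
      intro l _
      apply sum_congr rfl
      intro i _
      split_ifs
      · rfl
      · simp
    rw [sum_congr rfl e1, even_terms, hV]
    unfold ps
    rw [sum_mul]
    apply sum_congr rfl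
    intro i _
    rw [mul_sum]
    apply sum_congr rfl
    intro m _
    unfold cf3
    have e2 : 2 * i - i = i := by omega
    have h4 : (Nat.factorial i : ℂ) ≠ 0 := by exact_mod_cast Nat.factorial_ne_zero i
    have h5 : (Nat.factorial (2 * i) : ℂ) ≠ 0 := by exact_mod_cast Nat.factorial_ne_zero (2 * i)
    have e3 : (((2 * i).choose i : ℕ) : ℂ) = (Nat.factorial (2 * i) : ℂ) / ((Nat.factorial i : ℂ) * (Nat.factorial i : ℂ)) := by
      rw [eq_div_iff (mul_ne_zero h4 h4)]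
      have := Nat.choose_mul_factorial_mul_factorial (show i ≤ 2 * i by omega)
      rw [e2, mul_assoc] at this
      exact_mod_cast this
    have e4 : (starRingEnd ℂ) z ^ i * z ^ i = ((‖z‖ ^ 2 : ℝ) : ℂ) ^ i := by
      rw [← mul_pow, mul_comm ((starRingEnd ℂ) z), Complex.mul_conj, Complex.normSq_eq_norm_sq]
    have e5 : Complex.I ^ (2 * i) = (-1) ^ i := by rw [pow_mul, Complex.I_sq]
    rw [e2, e3, e4, e5, mul_pow, pow_add (V : ℂ) i m, pow_mul]
    have e6 : (-((‖z‖ ^ 2 / 4 : ℝ) : ℂ)) ^ i = (-1) ^ i * (((1 : ℂ) / 2) ^ 2) ^ i * ((‖z‖ ^ 2 : ℝ) : ℂ) ^ i := by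
      rw [← mul_pow, ← mul_pow]
      congr 1
      push_cast
      ring
    rw [e6]
    field_simp
  rw [h1, h2, ← sum_sub_distrib]
  apply sum_congr rfl
  intro l _
  rw [← sum_sub_distrib]
  apply sum_congr rfl
  intro i _
  rw [← sum_sub_distrib]
  apply sum_congr rfl
  intro m _
  unfold dv
  ring

lemma cf3_norm (R : ℝ) (hR : 1 ≤ R) (z : ℂ) (hz : ‖z‖ ≤ R) (s : ℝ) (hs : |s| ≤ R) (l i n : ℕ) (hi : i ≤ l) : ‖cf3 z s l i n‖ ≤ R ^ (l + n) := by
  unfold cf3
  rw [norm_mul, norm_mul, norm_mul, norm_mul, norm_div, norm_div, norm_mul, norm_pow, norm_pow, norm_pow, norm_pow, norm_pow, norm_mul, Complex.norm_I, RCLike.norm_conj,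
    Complex.norm_natCast, Complex.norm_natCast, Complex.norm_natCast, Complex.norm_real, Real.norm_eq_abs, one_pow, one_mul, pow_add]
  have h0 : (0 : ℝ) ≤ R := by linarith
  have h1 : (1 : ℝ) / (Nat.factorial l) ≤ 1 := by
    rw [div_le_one (by exact_mod_cast Nat.factorial_pos l)]
    exact_mod_cast Nat.one_le_iff_ne_zero.2 (Nat.factorial_ne_zero l)
  have h2 : ‖((1 : ℂ) / 2)‖ ^ l * (l.choose i : ℝ) ≤ 1 := by
    have e : ‖((1 : ℂ) / 2)‖ = 1 / 2 := by
      rw [norm_div, norm_one, Complex.norm_ofNat]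
    rw [e]
    have h3 : (l.choose i : ℝ) ≤ 2 ^ l := by
      have := Nat.choose_le_two_pow l i
      exact_mod_cast this
    calc (1 / 2 : ℝ) ^ l * (l.choose i : ℝ) ≤ (1 / 2 : ℝ) ^ l * 2 ^ l := mul_le_mul_of_nonneg_left h3 (by positivity)
      _ = 1 := by rw [← mul_pow]; norm_num
  have h3 : ‖z‖ ^ i * ‖z‖ ^ (l - i) ≤ R ^ l := by
    rw [← pow_add, Nat.add_sub_cancel' hi]
    exact pow_le_pow_left₀ (norm_nonneg _) hz l
  have h4 : |s| ^ n / (Nat.factorial n : ℝ) ≤ R ^ n := by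
    refine (div_le_self (by positivity) ?_).trans (pow_le_pow_left₀ (abs_nonneg _) hs n)
    exact_mod_cast Nat.one_le_iff_ne_zero.2 (Nat.factorial_ne_zero n)
  calc (1 : ℝ) / (Nat.factorial l) * ‖((1 : ℂ) / 2)‖ ^ l * (l.choose i : ℝ) * (‖z‖ ^ i * ‖z‖ ^ (l - i)) * (|s| ^ n / (Nat.factorial n : ℝ)) =
        (1 : ℝ) / (Nat.factorial l) * (‖((1 : ℂ) / 2)‖ ^ l * (l.choose i : ℝ)) * (‖z‖ ^ i * ‖z‖ ^ (l - i)) * (|s| ^ n / (Nat.factorial n : ℝ)) := by ring
    _ ≤ 1 * 1 * R ^ l * R ^ n := by gcongr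
    _ = R ^ l * R ^ n := by ring

/-- **From moments to characteristic functions.** -/
theorem chf (R ε : ℝ) (hR : 1 ≤ R) (hε : 0 < ε) : ∃ (D : ℕ) (η : ℝ), 0 < η ∧ ∀ {τ : Type} (T : Finset τ) (S : τ → ℂ) (V : τ → ℝ) (W : ℝ), (T.card : ℝ) ≤ W →
    (∀ m ∈ T, 0 ≤ V m ∧ V m ≤ 1) → (∀ p q j : ℕ, p ≤ D → q ≤ D → j ≤ D → ‖∑ m ∈ T, dv p q j (S m) (V m)‖ ≤ η * W) →
    ∀ (z : ℂ) (s : ℝ), ‖z‖ ≤ R → |s| ≤ R →
    ‖∑ m ∈ T, (Complex.exp (Complex.I * (((starRingEnd ℂ) z * S m).re + s * V m : ℝ)) - Complex.exp (-((‖z‖ ^ 2 / 4 * V m : ℝ) : ℂ) + Complex.I * (s * V m : ℝ)))‖ ≤ ε * W := by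
  have hR0 : 0 < R := by linarith
  -- the choice of `k`
  obtain ⟨k, hk1, hk2, hk3⟩ : ∃ k : ℕ, 2 * ((R ^ 2) ^ k / Nat.factorial k) ≤ ε / 8 ∧ (R ^ 2) ^ k / Nat.factorial k * 2 ≤ ε / 8 ∧ R ^ 2 / (k.succ : ℝ) ≤ 1 / 2 := by
    have h1 := FloorSemiring.tendsto_pow_div_factorial_atTop (R ^ 2 : ℝ)
    have h2 : ∀ᶠ k : ℕ in Filter.atTop, (R ^ 2) ^ k / (Nat.factorial k : ℝ) < ε / 16 := h1.eventually_lt_const (by positivity)
    have h3 : ∀ᶠ k : ℕ in Filter.atTop, ⌈2 * R ^ 2⌉₊ ≤ k := Filter.eventually_ge_atTop _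
    obtain ⟨k, hk, hk'⟩ := (h2.and h3).exists
    refine ⟨k, by linarith, by linarith, ?_⟩
    have h4 : 2 * R ^ 2 ≤ k := (Nat.le_ceil _).trans (by exact_mod_cast hk')
    rw [div_le_div_iff₀ (by positivity) (by norm_num)]
    push_cast
    linarith
  obtain ⟨B, hB⟩ : ∃ B : ℝ, B = (2 * k : ℕ) * (1 + R ^ (2 * k) * (1 + Nat.factorial k)) + Real.exp (R ^ 2) + 1 := ⟨_, rfl⟩
  have hB0 : 0 < B := by rw [hB]; positivity
  -- the choice of `n`
  obtain ⟨n, hn1, hn2⟩ : ∃ n : ℕ, R ^ n / Nat.factorial n * 2 ≤ ε / (8 * B) ∧ R / (n.succ : ℝ) ≤ 1 / 2 := by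
    have h1 := FloorSemiring.tendsto_pow_div_factorial_atTop (R : ℝ)
    have h2 : ∀ᶠ n : ℕ in Filter.atTop, R ^ n / (Nat.factorial n : ℝ) < ε / (8 * B) / 2 := h1.eventually_lt_const (by positivity)
    have h3 : ∀ᶠ n : ℕ in Filter.atTop, ⌈2 * R⌉₊ ≤ n := Filter.eventually_ge_atTop _
    obtain ⟨n, hn, hn'⟩ := (h2.and h3).exists
    refine ⟨n, by linarith, ?_⟩
    have h4 : 2 * R ≤ n := (Nat.le_ceil _).trans (by exact_mod_cast hn')
    rw [div_le_div_iff₀ (by positivity) (by norm_num)]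
    push_cast
    linarith
  obtain ⟨G, hG⟩ : ∃ G : ℝ, G = ∑ l ∈ range (2 * k), ∑ _i ∈ range (l + 1), ∑ m ∈ range n, R ^ (l + m) := ⟨_, rfl⟩
  have hG0 : 0 ≤ G := by
    rw [hG]
    exact sum_nonneg fun _ _ => sum_nonneg fun _ _ => sum_nonneg fun _ _ => by positivity
  refine ⟨2 * k + n, min 1 (ε / (8 * (G + 1))), lt_min one_pos (by positivity), ?_⟩
  intro τ T S V W hT hV hmom z s hz hs
  have hW : 0 ≤ W := (Nat.cast_nonneg _).trans hT
  obtain ⟨x, hx⟩ : ∃ x : τ → ℝ, x = fun m => ((starRingEnd ℂ) z * S m).re := ⟨_, rfl⟩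
  -- the decomposition
  have e1 : ∀ m, Complex.exp (Complex.I * (((starRingEnd ℂ) z * S m).re + s * V m : ℝ)) - Complex.exp (-((‖z‖ ^ 2 / 4 * V m : ℝ) : ℂ) + Complex.I * (s * V m : ℝ)) =
      (Complex.exp (Complex.I * x m) - ps (2 * k) (Complex.I * x m)) * Complex.exp (Complex.I * s * V m) +
      (ps (2 * k) (Complex.I * x m) - ps k (-((‖z‖ ^ 2 / 4 : ℝ) : ℂ) * V m)) * (Complex.exp (Complex.I * s * V m) - ps n (Complex.I * s * V m)) +
      (ps (2 * k) (Complex.I * x m) * ps n (Complex.I * s * V m) - ps k (-((‖z‖ ^ 2 / 4 : ℝ) : ℂ) * V m) * ps n (Complex.I * s * V m)) +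
      (ps k (-((‖z‖ ^ 2 / 4 : ℝ) : ℂ) * V m) - Complex.exp (-((‖z‖ ^ 2 / 4 : ℝ) : ℂ) * V m)) * Complex.exp (Complex.I * s * V m) := by
    intro m
    have a1 : Complex.exp (Complex.I * (((starRingEnd ℂ) z * S m).re + s * V m : ℝ)) = Complex.exp (Complex.I * x m) * Complex.exp (Complex.I * s * V m) := by
      rw [← Complex.exp_add, hx]
      congr 1
      push_cast
      ring
    have a2 : Complex.exp (-((‖z‖ ^ 2 / 4 * V m : ℝ) : ℂ) + Complex.I * (s * V m : ℝ)) = Complex.exp (-((‖z‖ ^ 2 / 4 : ℝ) : ℂ) * V m) * Complex.exp (Complex.I * s * V m) := by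
      rw [← Complex.exp_add]
      congr 1
      push_cast
      ring
    rw [a1, a2]
    ring
  have hexp : ∀ m, ‖Complex.exp (Complex.I * s * V m)‖ = 1 := by
    intro m
    have : Complex.I * s * V m = Complex.I * ((s * V m : ℝ) : ℂ) := by push_cast; ring
    rw [this, Complex.norm_exp_I_mul_ofReal]
  have hfac : (0 : ℝ) < Nat.factorial k := by exact_mod_cast Nat.factorial_pos k
  have hxS : ∀ m, |x m| ^ (2 * k) ≤ R ^ (2 * k) * ‖S m‖ ^ (2 * k) := by
    intro m
    rw [← mul_pow]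
    apply pow_le_pow_left₀ (abs_nonneg _)
    rw [hx]
    refine (Complex.abs_re_le_norm _).trans ?_
    rw [norm_mul, RCLike.norm_conj]
    exact mul_le_mul_of_nonneg_right hz (norm_nonneg _)
  have hS2 : ∑ m ∈ T, ‖S m‖ ^ (2 * k) ≤ (1 + Nat.factorial k) * W := by
    have h1 := hmom k k 0 (by omega) (by omega) (by omega)
    have h2 : ((∑ m ∈ T, ‖S m‖ ^ (2 * k) : ℝ) : ℂ) = ∑ m ∈ T, dv k k 0 (S m) (V m) + ((∑ m ∈ T, Nat.factorial k * V m ^ k : ℝ) : ℂ) := by
      rw [Complex.ofReal_sum, Complex.ofReal_sum, ← sum_add_distrib]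
      apply sum_congr rfl
      intro m _
      unfold dv
      rw [if_pos rfl, ← mul_pow, Complex.mul_conj, Complex.normSq_eq_norm_sq]
      push_cast
      rw [pow_mul]
      ring
    have h3 : ∑ m ∈ T, (Nat.factorial k : ℝ) * V m ^ k ≤ Nat.factorial k * W := by
      rw [← mul_sum]
      apply mul_le_mul_of_nonneg_left _ hfac.le
      refine (sum_le_card_nsmul T _ 1 fun m hm => pow_le_one₀ (hV m hm).1 (hV m hm).2).trans ?_
      rw [nsmul_one]
      exact hT
    have h3' : 0 ≤ ∑ m ∈ T, (Nat.factorial k : ℝ) * V m ^ k := sum_nonneg fun m hm => mul_nonneg hfac.le (pow_nonneg (hV m hm).1 _)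
    have h4 : ‖((∑ m ∈ T, ‖S m‖ ^ (2 * k) : ℝ) : ℂ)‖ ≤ min 1 (ε / (8 * (G + 1))) * W + Nat.factorial k * W := by
      rw [h2]
      refine (norm_add_le _ _).trans (add_le_add h1 ?_)
      rw [Complex.norm_real, Real.norm_eq_abs, abs_of_nonneg h3']
      exact h3
    rw [Complex.norm_real] at h4
    have h5 : min 1 (ε / (8 * (G + 1))) * W ≤ 1 * W := mul_le_mul_of_nonneg_right (min_le_left _ _) hW
    have h6 := (le_abs_self _).trans h4
    linarith
  have hxW : ∑ m ∈ T, |x m| ^ (2 * k) ≤ R ^ (2 * k) * (1 + Nat.factorial k) * W := by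
    refine (sum_le_sum fun m _ => hxS m).trans ?_
    rw [← mul_sum, mul_assoc]
    exact mul_le_mul_of_nonneg_left hS2 (by positivity)
  have hzV : ∀ m ∈ T, ‖-((‖z‖ ^ 2 / 4 : ℝ) : ℂ) * V m‖ ≤ R ^ 2 := by
    intro m hm
    rw [norm_mul, norm_neg, Complex.norm_real, Complex.norm_real, Real.norm_eq_abs, Real.norm_eq_abs, abs_of_nonneg (by positivity), abs_of_nonneg (hV m hm).1]
    have h1 : ‖z‖ ^ 2 ≤ R ^ 2 := pow_le_pow_left₀ (norm_nonneg _) hz 2
    have h2 := (hV m hm).2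
    have h3 := (hV m hm).1
    calc ‖z‖ ^ 2 / 4 * V m ≤ ‖z‖ ^ 2 / 4 * 1 := mul_le_mul_of_nonneg_left h2 (by positivity)
      _ ≤ R ^ 2 := by nlinarith [norm_nonneg z]
  have hsV : ∀ m ∈ T, ‖Complex.I * s * V m‖ ≤ R := by
    intro m hm
    rw [norm_mul, norm_mul, Complex.norm_I, one_mul, Complex.norm_real, Complex.norm_real, Real.norm_eq_abs, Real.norm_eq_abs, abs_of_nonneg (hV m hm).1]
    calc |s| * V m ≤ R * 1 := mul_le_mul hs (hV m hm).2 (hV m hm).1 hR0.le
      _ = R := mul_one R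
  -- the first term
  have b1 : ‖∑ m ∈ T, (Complex.exp (Complex.I * x m) - ps (2 * k) (Complex.I * x m)) * Complex.exp (Complex.I * s * V m)‖ ≤ ε / 8 * W := by
    have h1 : ‖∑ m ∈ T, (Complex.exp (Complex.I * x m) - ps (2 * k) (Complex.I * x m)) * Complex.exp (Complex.I * s * V m)‖ ≤ ∑ m ∈ T, |x m| ^ (2 * k) / Nat.factorial (2 * k) := by
      refine (norm_sum_le _ _).trans (sum_le_sum fun m _ => ?_)
      rw [norm_mul, hexp, mul_one]
      exact rem_all (2 * k) (x m)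
    refine h1.trans ?_
    rw [← sum_div]
    have h2 : (0 : ℝ) < Nat.factorial (2 * k) := by exact_mod_cast Nat.factorial_pos (2 * k)
    have h3 : (Nat.factorial k : ℝ) * Nat.factorial k ≤ Nat.factorial (2 * k) := by
      have := Nat.le_of_dvd (Nat.factorial_pos _) (Nat.factorial_mul_factorial_dvd_factorial_add k k)
      rw [← two_mul] at this
      exact_mod_cast this
    have h4 : (1 : ℝ) ≤ Nat.factorial k := by exact_mod_cast Nat.one_le_iff_ne_zero.2 (Nat.factorial_ne_zero k)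
    have h5 : R ^ (2 * k) * (1 + Nat.factorial k) / Nat.factorial (2 * k) ≤ 2 * ((R ^ 2) ^ k / Nat.factorial k) := by
      rw [div_le_iff₀ h2, pow_mul]
      have h6 : 2 * ((R ^ 2) ^ k / Nat.factorial k) * ((Nat.factorial k : ℝ) * Nat.factorial k) = (R ^ 2) ^ k * (2 * Nat.factorial k) := by
        field_simp
      calc (R ^ 2) ^ k * (1 + Nat.factorial k) ≤ (R ^ 2) ^ k * (2 * Nat.factorial k) := mul_le_mul_of_nonneg_left (by linarith) (by positivity)
        _ = 2 * ((R ^ 2) ^ k / Nat.factorial k) * ((Nat.factorial k : ℝ) * Nat.factorial k) := h6.symm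
        _ ≤ _ := mul_le_mul_of_nonneg_left h3 (by positivity)
    calc (∑ m ∈ T, |x m| ^ (2 * k)) / Nat.factorial (2 * k) ≤ (R ^ (2 * k) * (1 + Nat.factorial k) * W) / Nat.factorial (2 * k) := div_le_div_of_nonneg_right hxW h2.le
      _ = R ^ (2 * k) * (1 + Nat.factorial k) / Nat.factorial (2 * k) * W := by ring
      _ ≤ ε / 8 * W := mul_le_mul_of_nonneg_right (h5.trans hk1) hW
  -- the second term
  have b2 : ‖∑ m ∈ T, (ps (2 * k) (Complex.I * x m) - ps k (-((‖z‖ ^ 2 / 4 : ℝ) : ℂ) * V m)) * (Complex.exp (Complex.I * s * V m) - ps n (Complex.I * s * V m))‖ ≤ ε / 8 * W := by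
    have h1 : ∀ m ∈ T, ‖(ps (2 * k) (Complex.I * x m) - ps k (-((‖z‖ ^ 2 / 4 : ℝ) : ℂ) * V m)) * (Complex.exp (Complex.I * s * V m) - ps n (Complex.I * s * V m))‖ ≤
        ((2 * k : ℕ) * (1 + |x m| ^ (2 * k)) + (Real.exp (R ^ 2))) * (ε / (8 * B)) := by
      intro m hm
      rw [norm_mul]
      have h2 : ‖Complex.exp (Complex.I * s * V m) - ps n (Complex.I * s * V m)‖ ≤ ε / (8 * B) := by
        have h3 := hsV m hm
        have h4 := Complex.exp_bound' (x := Complex.I * s * V m) (n := n) ((div_le_div_of_nonneg_right h3 (by positivity)).trans hn2)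
        refine le_trans h4 (le_trans ?_ hn1)
        gcongr
      have h3 : ‖ps (2 * k) (Complex.I * x m)‖ ≤ (2 * k : ℕ) * (1 + |x m| ^ (2 * k)) := by
        have h4 := ps_norm' (2 * k) (Complex.I * x m)
        rw [norm_mul, Complex.norm_I, one_mul, Complex.norm_real, Real.norm_eq_abs] at h4
        exact h4
      have h4 : ‖ps k (-((‖z‖ ^ 2 / 4 : ℝ) : ℂ) * V m)‖ ≤ Real.exp (R ^ 2) := by
        unfold ps
        refine (norm_sum_le _ _).trans ?_
        have h5 : ∑ l ∈ range k, ‖(-((‖z‖ ^ 2 / 4 : ℝ) : ℂ) * V m) ^ l / (Nat.factorial l : ℂ)‖ ≤ ∑ l ∈ range k, (R ^ 2) ^ l / (Nat.factorial l : ℝ) := by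
          apply sum_le_sum
          intro l _
          rw [norm_div, norm_pow, Complex.norm_natCast]
          apply div_le_div_of_nonneg_right _ (Nat.cast_nonneg _)
          exact pow_le_pow_left₀ (norm_nonneg _) (hzV m hm) l
        exact h5.trans (Real.sum_le_exp_of_nonneg (by positivity) k)
      apply mul_le_mul ((norm_sub_le _ _).trans (add_le_add h3 h4)) h2 (norm_nonneg _) (by positivity)
    refine (norm_sum_le _ _).trans ((sum_le_sum h1).trans ?_)
    rw [← sum_mul, sum_add_distrib, ← mul_sum, sum_add_distrib, sum_const, sum_const, nsmul_eq_mul, nsmul_eq_mul, mul_one]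
    have h2 : (2 * k : ℕ) * ((T.card : ℝ) + ∑ m ∈ T, |x m| ^ (2 * k)) + T.card * Real.exp (R ^ 2) ≤ B * W := by
      rw [hB]
      have h3 : (0 : ℝ) ≤ (2 * k : ℕ) := Nat.cast_nonneg _
      have h4 : (0 : ℝ) ≤ Real.exp (R ^ 2) := (Real.exp_pos _).le
      calc (2 * k : ℕ) * ((T.card : ℝ) + ∑ m ∈ T, |x m| ^ (2 * k)) + T.card * Real.exp (R ^ 2) ≤
            (2 * k : ℕ) * (W + R ^ (2 * k) * (1 + Nat.factorial k) * W) + W * Real.exp (R ^ 2) := by gcongr
        _ ≤ _ := by nlinarith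
    calc ((2 * k : ℕ) * ((T.card : ℝ) + ∑ m ∈ T, |x m| ^ (2 * k)) + T.card * Real.exp (R ^ 2)) * (ε / (8 * B)) ≤ (B * W) * (ε / (8 * B)) :=
          mul_le_mul_of_nonneg_right h2 (by positivity)
      _ = ε / 8 * W := by field_simp
  -- the third term
  have b3 : ‖∑ m ∈ T, (ps (2 * k) (Complex.I * x m) * ps n (Complex.I * s * V m) - ps k (-((‖z‖ ^ 2 / 4 : ℝ) : ℂ) * V m) * ps n (Complex.I * s * V m))‖ ≤ ε / 8 * W := by
    have h1 : ∑ m ∈ T, (ps (2 * k) (Complex.I * x m) * ps n (Complex.I * s * V m) - ps k (-((‖z‖ ^ 2 / 4 : ℝ) : ℂ) * V m) * ps n (Complex.I * s * V m)) =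
        ∑ l ∈ range (2 * k), ∑ i ∈ range (l + 1), ∑ u ∈ range n, cf3 z s l i u * ∑ m ∈ T, dv i (l - i) u (S m) (V m) := by
      rw [hx, sum_congr rfl (fun m _ => expansion k n z s (S m) (V m)), sum_comm]
      apply sum_congr rfl
      intro l _
      rw [sum_comm]
      apply sum_congr rfl
      intro i _
      rw [sum_comm]
      apply sum_congr rfl
      intro u _
      rw [mul_sum]
    rw [h1]
    have h2 : ‖∑ l ∈ range (2 * k), ∑ i ∈ range (l + 1), ∑ u ∈ range n, cf3 z s l i u * ∑ m ∈ T, dv i (l - i) u (S m) (V m)‖ ≤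
        ∑ l ∈ range (2 * k), ∑ _i ∈ range (l + 1), ∑ u ∈ range n, R ^ (l + u) * (ε / (8 * (G + 1)) * W) := by
      refine (norm_sum_le _ _).trans (sum_le_sum fun l hl => (norm_sum_le _ _).trans (sum_le_sum fun i hi => (norm_sum_le _ _).trans (sum_le_sum fun u hu => ?_)))
      rw [mem_range] at hl hi hu
      rw [norm_mul]
      have h3 := hmom i (l - i) u (by omega) (by omega) (by omega)
      have h4 : min 1 (ε / (8 * (G + 1))) * W ≤ ε / (8 * (G + 1)) * W := mul_le_mul_of_nonneg_right (min_le_right _ _) hW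
      exact mul_le_mul (cf3_norm R hR z hz s hs l i u (by omega)) (h3.trans h4) (norm_nonneg _) (by positivity)
    refine h2.trans ?_
    have h3 : ∑ l ∈ range (2 * k), ∑ _i ∈ range (l + 1), ∑ u ∈ range n, R ^ (l + u) * (ε / (8 * (G + 1)) * W) = G * (ε / (8 * (G + 1)) * W) := by
      rw [hG, sum_mul]
      apply sum_congr rfl
      intro l _
      rw [sum_mul]
      apply sum_congr rfl
      intro i _
      rw [sum_mul]
    rw [h3]
    calc G * (ε / (8 * (G + 1)) * W) ≤ (G + 1) * (ε / (8 * (G + 1)) * W) := mul_le_mul_of_nonneg_right (by linarith) (by positivity)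
      _ = ε / 8 * W := by field_simp
  -- the fourth term
  have b4 : ‖∑ m ∈ T, (ps k (-((‖z‖ ^ 2 / 4 : ℝ) : ℂ) * V m) - Complex.exp (-((‖z‖ ^ 2 / 4 : ℝ) : ℂ) * V m)) * Complex.exp (Complex.I * s * V m)‖ ≤ ε / 8 * W := by
    have h1 : ∀ m ∈ T, ‖(ps k (-((‖z‖ ^ 2 / 4 : ℝ) : ℂ) * V m) - Complex.exp (-((‖z‖ ^ 2 / 4 : ℝ) : ℂ) * V m)) * Complex.exp (Complex.I * s * V m)‖ ≤ ε / 8 := by
      intro m hm
      rw [norm_mul, hexp, mul_one, norm_sub_rev]
      have h3 := hzV m hm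
      have h4 := Complex.exp_bound' (x := -((‖z‖ ^ 2 / 4 : ℝ) : ℂ) * V m) (n := k) ((div_le_div_of_nonneg_right h3 (by positivity)).trans hk3)
      refine le_trans h4 (le_trans ?_ hk2)
      gcongr
    refine (norm_sum_le _ _).trans ((sum_le_card_nsmul _ _ _ h1).trans ?_)
    rw [nsmul_eq_mul, mul_comm]
    exact mul_le_mul_of_nonneg_left hT (by positivity)
  rw [sum_congr rfl (fun m _ => e1 m), sum_add_distrib, sum_add_distrib, sum_add_distrib]
  refine (norm_add_le _ _).trans ?_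
  have h7 := norm_add_le (∑ m ∈ T, (Complex.exp (Complex.I * x m) - ps (2 * k) (Complex.I * x m)) * Complex.exp (Complex.I * s * V m) +
    ∑ m ∈ T, (ps (2 * k) (Complex.I * x m) - ps k (-((‖z‖ ^ 2 / 4 : ℝ) : ℂ) * V m)) * (Complex.exp (Complex.I * s * V m) - ps n (Complex.I * s * V m)))
    (∑ m ∈ T, (ps (2 * k) (Complex.I * x m) * ps n (Complex.I * s * V m) - ps k (-((‖z‖ ^ 2 / 4 : ℝ) : ℂ) * V m) * ps n (Complex.I * s * V m)))
  have h8 := norm_add_le (∑ m ∈ T, (Complex.exp (Complex.I * x m) - ps (2 * k) (Complex.I * x m)) * Complex.exp (Complex.I * s * V m))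
    (∑ m ∈ T, (ps (2 * k) (Complex.I * x m) - ps k (-((‖z‖ ^ 2 / 4 : ℝ) : ℂ) * V m)) * (Complex.exp (Complex.I * s * V m) - ps n (Complex.I * s * V m)))
  have h9 : 0 ≤ ε * W := by positivity
  linarith

end Pool.Agent.H18.GA
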