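import Mathlib

set_option autoImplicit false

/-! The diagonal terms in the expansion of a mixed moment. -/

namespace Pool.Agent.H18.GA
open Finset

/-- the number of the maps with few values -/
lemma cnt {ι : Type} [Fintype ι] [DecidableEq ι] (I : Finset ℕ) (N D : ℕ) (hI : I.Nonempty) (hN : I.card ≤ N) :
    ((Fintype.piFinset (fun _ : ι => I)).filter (fun g => (univ.image g).card ≤ D)).card ≤ N ^ D * D ^ Fintype.card ι := by
  classical
  have h1 : ((Fintype.piFinset (fun _ : ι => I)).filter (fun g => (univ.image g).card ≤ D)) ⊆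
      ((Fintype.piFinset (fun _ : Fin D => I)) ×ˢ (univ : Finset (ι → Fin D))).image (fun z => fun i => z.1 (z.2 i)) := by
    intro g hg
    rw [mem_filter, Fintype.mem_piFinset] at hg
    obtain ⟨hgI, hgD⟩ := hg
    obtain ⟨x0, hx0⟩ := hI
    obtain ⟨e⟩ : Nonempty ((univ.image g : Finset ℕ) ≃ Fin (univ.image g).card) := ⟨(univ.image g).equivFin⟩
    rw [mem_image]
    refine ⟨(fun j => if h : (j : ℕ) < (univ.image g).card then ((e.symm ⟨j, h⟩ : (univ.image g : Finset ℕ)) : ℕ) else x0,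
      fun i => Fin.castLE hgD (e ⟨g i, mem_image_of_mem g (mem_univ i)⟩)), ?_, ?_⟩
    · rw [mem_product, Fintype.mem_piFinset]
      refine ⟨fun j => ?_, mem_univ _⟩
      show (if h : (j : ℕ) < (univ.image g).card then ((e.symm ⟨j, h⟩ : (univ.image g : Finset ℕ)) : ℕ) else x0) ∈ I
      split_ifs with h
      · obtain ⟨i, _, hi⟩ := mem_image.1 (e.symm ⟨j, h⟩).2
        rw [← hi]
        exact hgI i
      · exact hx0
    · funext i
      simp only [Fin.val_castLE]
      rw [dif_pos (e ⟨g i, mem_image_of_mem g (mem_univ i)⟩).2]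
      simp
  refine (card_le_card h1).trans (card_image_le.trans ?_)
  rw [card_product, Fintype.card_piFinset_const, card_univ, Fintype.card_fun, Fintype.card_fin]
  exact Nat.mul_le_mul_right _ (Nat.pow_le_pow_left hN D)

variable {p q : ℕ}

/-- the multiplicities -/
def mx (g : Fin p ⊕ Fin q → ℕ) (n : ℕ) : ℕ := (univ.filter (fun i => g (Sum.inl i) = n)).card

/-- the multiplicities -/
def my (g : Fin p ⊕ Fin q → ℕ) (n : ℕ) : ℕ := (univ.filter (fun i => g (Sum.inr i) = n)).card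

/-- the trivial tuples -/
def Triv (g : Fin p ⊕ Fin q → ℕ) : Prop := ∀ n, 3 ∣ mx g n + 2 * my g n

/-- the simple tuples -/
def Simp (g : Fin p ⊕ Fin q → ℕ) : Prop := ∀ n, mx g n = my g n ∧ mx g n ≤ 1

lemma sum_mx (g : Fin p ⊕ Fin q → ℕ) (T : Finset ℕ) (hT : ∀ i, g i ∈ T) : ∑ n ∈ T, mx g n = p := by
  unfold mx
  rw [← card_eq_sum_card_fiberwise (s := (univ : Finset (Fin p))) (f := fun i => g (Sum.inl i)) (t := T)]
  · rw [card_univ, Fintype.card_fin]
  · intro i _
    exact hT _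

lemma sum_my (g : Fin p ⊕ Fin q → ℕ) (T : Finset ℕ) (hT : ∀ i, g i ∈ T) : ∑ n ∈ T, my g n = q := by
  unfold my
  rw [← card_eq_sum_card_fiberwise (s := (univ : Finset (Fin q))) (f := fun i => g (Sum.inr i)) (t := T)]
  · rw [card_univ, Fintype.card_fin]
  · intro i _
    exact hT _

lemma few (g : Fin p ⊕ Fin q → ℕ) (h : Triv g) (hs : ¬ Simp g) : (univ.image g).card ≤ (p + q - 1) / 2 := by
  classical
  have hT : ∀ i, g i ∈ univ.image g := fun i => mem_image_of_mem g (mem_univ i)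
  have h1 : ∑ n ∈ univ.image g, (mx g n + my g n) = p + q := by
    rw [sum_add_distrib, sum_mx g _ hT, sum_my g _ hT]
  unfold Simp at hs
  push Not at hs
  obtain ⟨n0, hn0⟩ := hs
  have h2 : ∀ n ∈ univ.image g, 2 ≤ mx g n + my g n := by
    intro n hn
    rw [mem_image] at hn
    obtain ⟨i, _, hi⟩ := hn
    have h3 : 1 ≤ mx g n + my g n := by
      rcases i with i | i
      · have : 0 < mx g n := card_pos.2 ⟨i, mem_filter.2 ⟨mem_univ i, hi⟩⟩
        omega
      · have : 0 < my g n := card_pos.2 ⟨i, mem_filter.2 ⟨mem_univ i, hi⟩⟩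
        omega
    have := h n
    omega
  have h3 : 3 ≤ mx g n0 + my g n0 := by
    have := h n0
    by_cases h4 : mx g n0 = my g n0
    · have := hn0 h4
      omega
    · omega
  have h4 : n0 ∈ univ.image g := by
    by_contra hcon
    have e1 : mx g n0 = 0 := by
      unfold mx
      rw [card_eq_zero, filter_eq_empty_iff]
      intro i _ hi
      exact hcon (mem_image.2 ⟨_, mem_univ _, hi⟩)
    have e2 : my g n0 = 0 := by
      unfold my
      rw [card_eq_zero, filter_eq_empty_iff]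
      intro i _ hi
      exact hcon (mem_image.2 ⟨_, mem_univ _, hi⟩)
    omega
  have h5 : 2 * (univ.image g).card + 1 ≤ p + q := by
    rw [← h1, ← add_sum_erase _ _ h4]
    have h6 : 2 * ((univ.image g).erase n0).card ≤ ∑ n ∈ (univ.image g).erase n0, (mx g n + my g n) := by
      rw [mul_comm, ← smul_eq_mul]
      exact card_nsmul_le_sum _ _ _ fun n hn => h2 n (mem_of_mem_erase hn)
    have h7 := card_erase_of_mem h4
    have h8 : 0 < (univ.image g).card := card_pos.2 ⟨n0, h4⟩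
    omega
  omega

lemma simp_of (f : Fin p → ℕ) (hf : Function.Injective f) (σ : Equiv.Perm (Fin p)) : Simp (Sum.elim f (f ∘ σ)) := by
  intro n
  have e1 : mx (Sum.elim f (f ∘ σ)) n = (univ.filter (fun i => f i = n)).card := rfl
  have e2 : my (Sum.elim f (f ∘ σ)) n = (univ.filter (fun i => f i = n)).card := by
    show (univ.filter (fun i => f (σ i) = n)).card = _
    refine card_bij (fun i _ => σ i) ?_ (fun _ _ _ _ h => σ.injective h) ?_
    · intro i hi
      rw [mem_filter] at hi ⊢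
      exact ⟨mem_univ _, hi.2⟩
    · intro i hi
      rw [mem_filter] at hi
      exact ⟨σ.symm i, by rw [mem_filter]; exact ⟨mem_univ _, by rw [Equiv.apply_symm_apply]; exact hi.2⟩, Equiv.apply_symm_apply _ _⟩
  rw [e1, e2]
  refine ⟨rfl, ?_⟩
  rw [card_le_one]
  intro i hi k hk
  rw [mem_filter] at hi hk
  exact hf (hi.2.trans hk.2.symm)

lemma triv_of {g : Fin p ⊕ Fin q → ℕ} (h : Simp g) : Triv g := by
  intro n
  have := h n
  omega

lemma simp_eq {g : Fin p ⊕ Fin q → ℕ} (h : Simp g) : p = q := by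
  classical
  have hT : ∀ i, g i ∈ univ.image g := fun i => mem_image_of_mem g (mem_univ i)
  exact (sum_mx g _ hT).symm.trans ((sum_congr rfl fun n _ => (h n).1).trans (sum_my g _ hT))

lemma simp_form {g : Fin p ⊕ Fin p → ℕ} (h : Simp g) : ∃ σ : Equiv.Perm (Fin p), Function.Injective (fun i => g (Sum.inl i)) ∧ g = Sum.elim (fun i => g (Sum.inl i)) ((fun i => g (Sum.inl i)) ∘ σ) := by
  classical
  have h1 : Function.Injective (fun i => g (Sum.inl i)) := by
    intro i k hik
    have h2 := (h (g (Sum.inl i))).2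
    unfold mx at h2
    rw [card_le_one] at h2
    exact h2 i (mem_filter.2 ⟨mem_univ _, rfl⟩) k (mem_filter.2 ⟨mem_univ _, hik.symm⟩)
  have h2 : Function.Injective (fun i => g (Sum.inr i)) := by
    intro i k hik
    have h3 := (h (g (Sum.inr i))).2
    rw [(h _).1] at h3
    unfold my at h3
    rw [card_le_one] at h3
    exact h3 i (mem_filter.2 ⟨mem_univ _, rfl⟩) k (mem_filter.2 ⟨mem_univ _, hik.symm⟩)
  have h3 : ∀ i, ∃ k, g (Sum.inl k) = g (Sum.inr i) := by
    intro i
    have h4 : 0 < my g (g (Sum.inr i)) := card_pos.2 ⟨i, mem_filter.2 ⟨mem_univ _, rfl⟩⟩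
    rw [← (h _).1] at h4
    obtain ⟨k, hk⟩ := card_pos.1 h4
    rw [mem_filter] at hk
    exact ⟨k, hk.2⟩
  choose σ hσ using h3
  have hσi : Function.Injective σ := by
    intro i k hik
    apply h2
    show g (Sum.inr i) = g (Sum.inr k)
    rw [← hσ i, ← hσ k, hik]
  refine ⟨Equiv.ofBijective σ (Finite.injective_iff_bijective.1 hσi), h1, ?_⟩
  funext i
  rcases i with i | i
  · rfl
  · show g (Sum.inr i) = g (Sum.inl (σ i))
    exact (hσ i).symm

/-- the factors -/
noncomputable def uf (p q : ℕ) (u : ℕ → ℂ) : Fin p ⊕ Fin q → ℕ → ℂ := Sum.elim (fun _ => u) (fun _ n => (starRingEnd ℂ) (u n))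

lemma uf_norm (u : ℕ → ℂ) (hu : ∀ n, ‖u n‖ ≤ 1) (i : Fin p ⊕ Fin q) (n : ℕ) : ‖uf p q u i n‖ ≤ 1 := by
  unfold uf
  rcases i with i | i
  · exact hu n
  · simp only [Sum.elim_inr, RCLike.norm_conj]
    exact hu n

lemma prod_uf_norm (u : ℕ → ℂ) (hu : ∀ n, ‖u n‖ ≤ 1) (g : Fin p ⊕ Fin q → ℕ) : ‖∏ i, uf p q u i (g i)‖ ≤ 1 := by
  rw [norm_prod]
  exact prod_le_one (fun _ _ => norm_nonneg _) (fun i _ => uf_norm u hu i _)

open Classical in
/-- the simple terms -/
lemma simp_sum (u : ℕ → ℂ) (I : Finset ℕ) :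
    ∑ g ∈ (Fintype.piFinset (fun _ : Fin p ⊕ Fin p => I)).filter (fun g => Simp g), ∏ i, uf p p u i (g i) =
      (Nat.factorial p : ℂ) * ∑ f ∈ (Fintype.piFinset (fun _ : Fin p => I)).filter (fun f => Function.Injective f), ∏ i, ((‖u (f i)‖ ^ 2 : ℝ) : ℂ) := by
  have h1 : ∑ g ∈ (Fintype.piFinset (fun _ : Fin p ⊕ Fin p => I)).filter (fun g => Simp g), ∏ i, uf p p u i (g i) =
      ∑ z ∈ ((Fintype.piFinset (fun _ : Fin p => I)).filter (fun f => Function.Injective f)) ×ˢ (univ : Finset (Equiv.Perm (Fin p))),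
        ∏ i, ((‖u (z.1 i)‖ ^ 2 : ℝ) : ℂ) := by
    symm
    refine sum_nbij (fun z => Sum.elim z.1 (z.1 ∘ z.2)) ?_ ?_ ?_ ?_
    · intro z hz
      rw [mem_product, mem_filter, Fintype.mem_piFinset] at hz
      rw [mem_filter, Fintype.mem_piFinset]
      refine ⟨fun i => ?_, simp_of _ hz.1.2 _⟩
      rcases i with i | i
      · exact hz.1.1 i
      · exact hz.1.1 _
    · intro z hz z' hz' hzz
      rw [mem_coe, mem_product, mem_filter] at hz
      have e1 : z.1 = z'.1 := by
        funext i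
        exact congrFun hzz (Sum.inl i)
      have e2 : z.2 = z'.2 := by
        ext i
        have h2 : z.1 (z.2 i) = z'.1 (z'.2 i) := congrFun hzz (Sum.inr i)
        rw [← e1] at h2
        rw [hz.1.2 h2]
      exact Prod.ext e1 e2
    · intro g hg
      rw [mem_coe, mem_filter, Fintype.mem_piFinset] at hg
      obtain ⟨σ, h2, h3⟩ := simp_form hg.2
      refine ⟨(fun i => g (Sum.inl i), σ), ?_, h3.symm⟩
      rw [mem_coe, mem_product, mem_filter, Fintype.mem_piFinset]
      exact ⟨⟨fun i => hg.1 _, h2⟩, mem_univ _⟩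
    · intro z _
      rw [Fintype.prod_sum_type]
      simp only [uf, Sum.elim_inl, Sum.elim_inr, Function.comp]
      rw [Equiv.prod_comp z.2 (fun i => (starRingEnd ℂ) (u (z.1 i))), ← prod_mul_distrib]
      apply prod_congr rfl
      intro i _
      rw [Complex.mul_conj, Complex.normSq_eq_norm_sq]
  rw [h1, sum_product]
  simp only [sum_const]
  rw [← smul_sum, card_univ, Fintype.card_perm, Fintype.card_fin, nsmul_eq_mul]

open Classical in
/-- **The diagonal terms.** -/
theorem diag (p q : ℕ) : ∃ K : ℕ, ∀ (I : Finset ℕ) (N : ℕ), I.Nonempty → I.card ≤ N → ∀ u : ℕ → ℂ, (∀ n, ‖u n‖ ≤ 1) →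
    ‖∑ g ∈ (Fintype.piFinset (fun _ : Fin p ⊕ Fin q => I)).filter (fun g => Triv g), ∏ i, uf p q u i (g i) -
      (if p = q then (Nat.factorial p : ℂ) * ((∑ n ∈ I, ‖u n‖ ^ 2 : ℝ) : ℂ) ^ p else 0)‖ ≤ K * (N : ℝ) ^ ((p + q - 1) / 2) := by
  refine ⟨((p + q - 1) / 2) ^ (p + q) + Nat.factorial p * (p - 1) ^ p, fun I N hI hN u hu => ?_⟩
  have hN1 : 1 ≤ N := (card_pos.2 hI).trans_le hN
  have h1 : ∑ g ∈ (Fintype.piFinset (fun _ : Fin p ⊕ Fin q => I)).filter (fun g => Triv g), ∏ i, uf p q u i (g i) =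
      ∑ g ∈ (Fintype.piFinset (fun _ : Fin p ⊕ Fin q => I)).filter (fun g => Triv g ∧ ¬ Simp g), ∏ i, uf p q u i (g i) +
      ∑ g ∈ (Fintype.piFinset (fun _ : Fin p ⊕ Fin q => I)).filter (fun g => Simp g), ∏ i, uf p q u i (g i) := by
    rw [← sum_filter_add_sum_filter_not ((Fintype.piFinset (fun _ : Fin p ⊕ Fin q => I)).filter (fun g => Triv g)) (fun g => ¬ Simp g), filter_filter, filter_filter]
    congr 1
    apply sum_congr _ (fun _ _ => rfl)
    apply filter_congr
    intro g _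
    rw [not_not]
    exact ⟨fun h => h.2, fun h => ⟨triv_of h, h⟩⟩
  have h2 : ‖∑ g ∈ (Fintype.piFinset (fun _ : Fin p ⊕ Fin q => I)).filter (fun g => Triv g ∧ ¬ Simp g), ∏ i, uf p q u i (g i)‖ ≤
      (((p + q - 1) / 2) ^ (p + q) : ℕ) * (N : ℝ) ^ ((p + q - 1) / 2) := by
    refine (norm_sum_le _ _).trans ?_
    have h3 : ∑ g ∈ (Fintype.piFinset (fun _ : Fin p ⊕ Fin q => I)).filter (fun g => Triv g ∧ ¬ Simp g), ‖∏ i, uf p q u i (g i)‖ ≤
        (((Fintype.piFinset (fun _ : Fin p ⊕ Fin q => I)).filter (fun g => Triv g ∧ ¬ Simp g)).card : ℝ) := by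
      rw [← nsmul_one]
      exact sum_le_card_nsmul _ _ _ fun g _ => prod_uf_norm u hu g
    refine h3.trans ?_
    have h4 : ((Fintype.piFinset (fun _ : Fin p ⊕ Fin q => I)).filter (fun g => Triv g ∧ ¬ Simp g)).card ≤ N ^ ((p + q - 1) / 2) * ((p + q - 1) / 2) ^ (p + q) := by
      have h5 := cnt (ι := Fin p ⊕ Fin q) I N ((p + q - 1) / 2) hI hN
      rw [Fintype.card_sum, Fintype.card_fin, Fintype.card_fin] at h5
      refine (card_le_card ?_).trans h5
      intro g hg
      rw [mem_filter] at hg ⊢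
      exact ⟨hg.1, few g hg.2.1 hg.2.2⟩
    have h5 : (((Fintype.piFinset (fun _ : Fin p ⊕ Fin q => I)).filter (fun g => Triv g ∧ ¬ Simp g)).card : ℝ) ≤ ((N ^ ((p + q - 1) / 2) * ((p + q - 1) / 2) ^ (p + q) : ℕ) : ℝ) := by
      exact_mod_cast h4
    refine h5.trans (le_of_eq ?_)
    push_cast
    ring
  have h3 : ‖∑ g ∈ (Fintype.piFinset (fun _ : Fin p ⊕ Fin q => I)).filter (fun g => Simp g), ∏ i, uf p q u i (g i) -
      (if p = q then (Nat.factorial p : ℂ) * ((∑ n ∈ I, ‖u n‖ ^ 2 : ℝ) : ℂ) ^ p else 0)‖ ≤ ((Nat.factorial p * (p - 1) ^ p : ℕ) : ℝ) * (N : ℝ) ^ ((p + q - 1) / 2) := by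
    by_cases hpq : p = q
    · subst hpq
      rw [if_pos rfl, simp_sum, ← mul_sub]
      have e1 : ((∑ n ∈ I, ‖u n‖ ^ 2 : ℝ) : ℂ) ^ p = ∑ f ∈ Fintype.piFinset (fun _ : Fin p => I), ∏ i, ((‖u (f i)‖ ^ 2 : ℝ) : ℂ) := by
        have := prod_univ_sum (fun _ : Fin p => I) (fun (_ : Fin p) n => ((‖u n‖ ^ 2 : ℝ) : ℂ))
        rw [← this, prod_const, card_univ, Fintype.card_fin, Complex.ofReal_sum]
      have e2 : ∑ f ∈ (Fintype.piFinset (fun _ : Fin p => I)).filter (fun f => Function.Injective f), ∏ i, ((‖u (f i)‖ ^ 2 : ℝ) : ℂ) - ((∑ n ∈ I, ‖u n‖ ^ 2 : ℝ) : ℂ) ^ p =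
          - ∑ f ∈ (Fintype.piFinset (fun _ : Fin p => I)).filter (fun f => ¬ Function.Injective f), ∏ i, ((‖u (f i)‖ ^ 2 : ℝ) : ℂ) := by
        rw [e1, ← sum_filter_add_sum_filter_not (Fintype.piFinset (fun _ : Fin p => I)) (fun f => Function.Injective f)]
        ring
      rw [e2, norm_mul, norm_neg, Complex.norm_natCast, Nat.cast_mul, Nat.cast_pow, mul_assoc]
      apply mul_le_mul_of_nonneg_left _ (Nat.cast_nonneg _)
      refine (norm_sum_le _ _).trans ?_
      have h4 : ∑ f ∈ (Fintype.piFinset (fun _ : Fin p => I)).filter (fun f => ¬ Function.Injective f), ‖∏ i, ((‖u (f i)‖ ^ 2 : ℝ) : ℂ)‖ ≤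
          (((Fintype.piFinset (fun _ : Fin p => I)).filter (fun f => ¬ Function.Injective f)).card : ℝ) := by
        rw [← nsmul_one]
        refine sum_le_card_nsmul _ _ _ fun g _ => ?_
        rw [norm_prod]
        refine prod_le_one (fun _ _ => norm_nonneg _) (fun i _ => ?_)
        rw [Complex.norm_real, Real.norm_eq_abs, abs_of_nonneg (by positivity)]
        exact pow_le_one₀ (norm_nonneg _) (hu _)
      refine h4.trans ?_
      have h5 : ((Fintype.piFinset (fun _ : Fin p => I)).filter (fun f => ¬ Function.Injective f)).card ≤ N ^ ((p + p - 1) / 2) * (p - 1) ^ p := by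
        have h6 := cnt (ι := Fin p) I N (p - 1) hI hN
        rw [Fintype.card_fin] at h6
        have e3 : (p + p - 1) / 2 = p - 1 := by omega
        rw [e3]
        refine (card_le_card ?_).trans h6
        intro f hf
        rw [mem_filter] at hf ⊢
        refine ⟨hf.1, ?_⟩
        have h7 : (univ.image f).card < (univ : Finset (Fin p)).card := by
          refine lt_of_le_of_ne card_image_le ?_
          intro h8
          apply hf.2
          rw [card_image_iff] at h8
          intro i k hik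
          exact h8 (mem_coe.2 (mem_univ i)) (mem_coe.2 (mem_univ k)) hik
        rw [card_univ, Fintype.card_fin] at h7
        omega
      have h6 : (((Fintype.piFinset (fun _ : Fin p => I)).filter (fun f => ¬ Function.Injective f)).card : ℝ) ≤ ((N ^ ((p + p - 1) / 2) * (p - 1) ^ p : ℕ) : ℝ) := by
        exact_mod_cast h5
      have h7 : (((p - 1 : ℕ) : ℝ)) ^ p * (N : ℝ) ^ ((p + p - 1) / 2) = ((N ^ ((p + p - 1) / 2) * (p - 1) ^ p : ℕ) : ℝ) := by
        push_cast
        ring
      rw [h7]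
      exact h6
    · rw [if_neg hpq, sub_zero]
      have h4 : (Fintype.piFinset (fun _ : Fin p ⊕ Fin q => I)).filter (fun g => Simp g) = ∅ := by
        apply filter_eq_empty_iff.2
        intro g _ h
        exact hpq (simp_eq h)
      rw [h4, sum_empty, norm_zero]
      positivity
  rw [h1, add_sub_assoc]
  refine (norm_add_le _ _).trans ((add_le_add h2 h3).trans (le_of_eq ?_))
  push_cast
  ring

end Pool.Agent.H18.GA
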