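import Pool.Agent.H18.GA.Cmb
import Pool.Graph.R_pool_sql_team_seeded_35f281b4.K7.H57.Cub.Mean

set_option autoImplicit false

/-! Mixed moments of short sums of cubic residue symbols over affine families. -/

namespace Pool.Agent.H18.GA
open Finset
open Pool.Agent.Y692.QS
open Pool.Agent.X22.CC
open Pool.Agent.K7.H57.Cub
open Pool.Agent.TH894.NE (box mem_box card_box)

/-- the part prime to three -/
def s3 (n : ℕ) : ℕ := n / 3 ^ n.factorization 3

/-- the product of the primes different from three which occur with exponents not divisible by three -/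
def rr (n : ℕ) : ℕ := ∏ p ∈ n.primeFactors.filter (fun p => p ≠ 3 ∧ ¬ 3 ∣ n.factorization p), p

lemma s3_mul (n : ℕ) : 3 ^ n.factorization 3 * s3 n = n := Nat.ordProj_mul_ordCompl_eq_self n 3

lemma s3_ne {n : ℕ} (hn : n ≠ 0) : s3 n ≠ 0 := by
  intro h
  have := s3_mul n
  rw [h, mul_zero] at this
  exact hn this.symm

lemma s3_three {n : ℕ} (hn : n ≠ 0) : ¬ 3 ∣ s3 n := Nat.not_dvd_ordCompl Nat.prime_three hn

lemma s3_le (n : ℕ) : s3 n ≤ n := Nat.div_le_self _ _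

lemma s3_fact (n p : ℕ) (hp : p ≠ 3) : (s3 n).factorization p = n.factorization p := by
  show (n / 3 ^ n.factorization 3).factorization p = _
  rw [Nat.factorization_ordCompl, Finsupp.erase_ne hp]

/-- the distance to `n`, or one -/
def dist1 (n x : ℕ) : ℕ := if x = n then 1 else (x - n) + (n - x)

lemma dist1_pos (n x : ℕ) : 0 < dist1 n x := by
  unfold dist1
  split_ifs
  · exact one_pos
  · omega

lemma dist1_le {M N n x : ℕ} (hN : 1 ≤ N) (hn : n ∈ Ioc M (M + N)) (hx : x ∈ Ioc M (M + N)) : dist1 n x ≤ N := by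
  rw [mem_Ioc] at hn hx
  unfold dist1
  split_ifs
  · exact hN
  · omega

lemma dist1_dvd {n x p : ℕ} (hxn : x ≠ n) (hpn : p ∣ n) (hpx : p ∣ x) : p ∣ dist1 n x := by
  unfold dist1
  rw [if_neg hxn]
  rcases le_total x n with h | h
  · rw [Nat.sub_eq_zero_of_le h, zero_add]
    exact Nat.dvd_sub hpn hpx
  · rw [Nat.sub_eq_zero_of_le h, add_zero]
    exact Nat.dvd_sub hpx hpn

/-- **The tuples which are not trivial have a large radical.** -/
lemma key {ι : Type} [Fintype ι] {j : ℕ} (B : ℕ) (hB : B ≠ 0) (M N : ℕ) (hN : 1 ≤ N) (g s : ι → ℕ) (h : Fin j → ℕ)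
    (hg : ∀ i, g i ∈ Ioc M (M + N)) (hh : ∀ i, h i ≠ 0) (n0 : ℕ) (hn0 : n0 ∈ Ioc M (M + N))
    (he : ¬ 3 ∣ ∑ i, if g i = n0 then s i else 0) :
    rr n0 ≤ Zr ((∏ i, s3 (g i) ^ s i) * ∏ i, s3 (h i) ^ 3) B * (B * N ^ Fintype.card ι) := by
  classical
  have hg0 : ∀ i, g i ≠ 0 := fun i => by
    have := mem_Ioc.1 (hg i)
    omega
  have hn00 : n0 ≠ 0 := by
    have := mem_Ioc.1 hn0
    omega
  obtain ⟨Q, hQ⟩ : ∃ Q, Q = (∏ i, s3 (g i) ^ s i) * ∏ i, s3 (h i) ^ 3 := ⟨_, rfl⟩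
  have hQ1 : ∏ i, s3 (g i) ^ s i ≠ 0 := prod_ne_zero_iff.2 fun i _ => pow_ne_zero _ (s3_ne (hg0 i))
  have hQ2 : ∏ i, s3 (h i) ^ 3 ≠ 0 := prod_ne_zero_iff.2 fun i _ => pow_ne_zero _ (s3_ne (hh i))
  have hQ0 : Q ≠ 0 := by rw [hQ]; exact Nat.mul_ne_zero hQ1 hQ2
  rw [← hQ]
  have h1 : rr n0 ∣ Zr Q B * (B * ∏ i, dist1 n0 (g i)) := by
    unfold rr
    apply Finset.prod_primes_dvd
    · intro p hp
      rw [mem_filter] at hp
      exact (Nat.prime_of_mem_primeFactors hp.1).prime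
    · intro p hp
      rw [mem_filter] at hp
      obtain ⟨hpn, hp3, hpv⟩ := hp
      have hpp := Nat.prime_of_mem_primeFactors hpn
      have hpd := Nat.dvd_of_mem_primeFactors hpn
      by_cases hpB : p ∣ B
      · exact (hpB.mul_right _).mul_left _
      by_cases hpD : p ∣ ∏ i, dist1 n0 (g i)
      · exact (hpD.mul_left _).mul_left _
      apply Dvd.dvd.mul_right
      have hother : ∀ i, g i ≠ n0 → (s3 (g i)).factorization p = 0 := by
        intro i hi
        rw [s3_fact _ _ hp3]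
        apply Nat.factorization_eq_zero_of_not_dvd
        intro hcon
        apply hpD
        exact (dist1_dvd hi hpd hcon).trans (dvd_prod_of_mem (fun i => dist1 n0 (g i)) (mem_univ i))
      have hval : Q.factorization p = (∑ i, if g i = n0 then s i else 0) * n0.factorization p + 3 * ∑ i, (s3 (h i)).factorization p := by
        rw [hQ, Nat.factorization_mul hQ1 hQ2, Finsupp.add_apply, Nat.factorization_prod_apply (fun i _ => pow_ne_zero _ (s3_ne (hg0 i))),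
          Nat.factorization_prod_apply (fun i _ => pow_ne_zero _ (s3_ne (hh i))), sum_mul, mul_sum]
        congr 1
        · apply sum_congr rfl
          intro i _
          rw [Nat.factorization_pow, Finsupp.smul_apply, smul_eq_mul]
          split_ifs with hi
          · rw [hi, s3_fact _ _ hp3]
          · rw [hother i hi, mul_zero, zero_mul]
        · apply sum_congr rfl
          intro i _
          rw [Nat.factorization_pow, Finsupp.smul_apply, smul_eq_mul]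
      have hnd : ¬ 3 ∣ Q.factorization p := by
        rw [hval]
        intro hcon
        have h2 := (Nat.dvd_add_left (dvd_mul_right 3 _)).1 hcon
        rcases (Nat.Prime.dvd_mul Nat.prime_three).1 h2 with h3 | h3
        · exact he h3
        · exact hpv h3
      have hpQ : p ∣ Q := by
        by_contra hcon
        apply hnd
        rw [Nat.factorization_eq_zero_of_not_dvd hcon]
        exact dvd_zero 3
      unfold Zr
      apply dvd_prod_of_mem (fun p => p)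
      rw [mem_filter, Nat.mem_primeFactors]
      exact ⟨⟨hpp, hpQ, hQ0⟩, hnd, hpB⟩
  have h2 : 0 < Zr Q B * (B * ∏ i, dist1 n0 (g i)) :=
    Nat.mul_pos (Zr_pos _ _) (Nat.mul_pos (Nat.pos_of_ne_zero hB) (prod_pos fun i _ => dist1_pos _ _))
  refine (Nat.le_of_dvd h2 h1).trans ?_
  apply Nat.mul_le_mul_left
  apply Nat.mul_le_mul_left
  calc ∏ i, dist1 n0 (g i) ≤ ∏ _i : ι, N := prod_le_prod' fun i _ => dist1_le hN hn0 (hg i)
    _ = N ^ Fintype.card ι := by rw [prod_const, card_univ]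

/-- the signs -/
def sgn (p q : ℕ) : Fin p ⊕ Fin q → ℕ := Sum.elim (fun _ => 1) (fun _ => 2)

lemma sgn_sum {p q : ℕ} (g : Fin p ⊕ Fin q → ℕ) (n : ℕ) : (∑ i, if g i = n then sgn p q i else 0) = mx g n + 2 * my g n := by
  rw [Fintype.sum_sum_type]
  unfold sgn mx my
  simp only [Sum.elim_inl, Sum.elim_inr]
  rw [card_filter, card_filter, mul_sum]
  congr 1
  apply sum_congr rfl
  intro i _
  split_ifs <;> rfl

section
variable (w : ℕ → ℂ) (x : Ei)

/-- the terms -/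
noncomputable def tm (n : ℕ) : ℂ := w n * FF (s3 n) x

/-- the short sum -/
noncomputable def Sx (M N : ℕ) : ℂ := ∑ n ∈ Ioc M (M + N), tm w x n

/-- the variance -/
noncomputable def Vx (M N : ℕ) : ℝ := ∑ n ∈ Ioc M (M + N), ‖tm w x n‖ ^ 2

lemma tm_norm (hw : ∀ n, ‖w n‖ ≤ 1) (n : ℕ) : ‖tm w x n‖ ≤ 1 := by
  unfold tm
  rw [norm_mul]
  exact mul_le_one₀ (hw n) (norm_nonneg _) (FF_norm _ _)

lemma Vx_nonneg (M N : ℕ) : 0 ≤ Vx w x M N := sum_nonneg fun _ _ => by positivity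

lemma Vx_le (hw : ∀ n, ‖w n‖ ≤ 1) (M N : ℕ) : Vx w x M N ≤ N := by
  unfold Vx
  have h1 : ∑ n ∈ Ioc M (M + N), ‖tm w x n‖ ^ 2 ≤ (Ioc M (M + N)).card • (1 : ℝ) :=
    sum_le_card_nsmul _ _ _ fun n _ => pow_le_one₀ (norm_nonneg _) (tm_norm w x hw n)
  rw [Nat.card_Ioc, nsmul_one, Nat.add_sub_cancel_left] at h1
  exact h1

lemma expand_S (M N p q : ℕ) : Sx w x M N ^ p * (starRingEnd ℂ) (Sx w x M N) ^ q =
    ∑ g ∈ Fintype.piFinset (fun _ : Fin p ⊕ Fin q => Ioc M (M + N)), ∏ i, uf p q (tm w x) i (g i) := by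
  have h1 : ∏ i : Fin p ⊕ Fin q, ∑ n ∈ Ioc M (M + N), uf p q (tm w x) i n = Sx w x M N ^ p * (starRingEnd ℂ) (Sx w x M N) ^ q := by
    rw [Fintype.prod_sum_type]
    simp only [uf, Sum.elim_inl, Sum.elim_inr]
    rw [prod_const, prod_const, card_univ, card_univ, Fintype.card_fin, Fintype.card_fin]
    unfold Sx
    rw [map_sum]
  rw [← h1, prod_univ_sum]

lemma sq_tm (n : ℕ) : ((‖tm w x n‖ ^ 2 : ℝ) : ℂ) = ((‖w n‖ ^ 2 : ℝ) : ℂ) * FF (s3 n) x ^ 3 := by
  unfold tm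
  rw [norm_mul, mul_pow]
  push_cast
  congr 1
  have h1 : FF (s3 n) x ^ 3 = FF (s3 n) x * (starRingEnd ℂ) (FF (s3 n) x) := by
    rw [pow_succ, sq_conj (FF_val (s3 n) x), mul_comm]
  rw [h1, Complex.mul_conj, Complex.normSq_eq_norm_sq]
  push_cast
  rfl

lemma expand_V (M N j : ℕ) : ((Vx w x M N : ℝ) : ℂ) ^ j =
    ∑ h ∈ Fintype.piFinset (fun _ : Fin j => Ioc M (M + N)), (∏ i, ((‖w (h i)‖ ^ 2 : ℝ) : ℂ)) * ∏ i, FF (s3 (h i)) x ^ 3 := by
  have h1 : ∏ _i : Fin j, ∑ n ∈ Ioc M (M + N), ((‖tm w x n‖ ^ 2 : ℝ) : ℂ) = ((Vx w x M N : ℝ) : ℂ) ^ j := by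
    rw [prod_const, card_univ, Fintype.card_fin]
    unfold Vx
    rw [Complex.ofReal_sum]
  rw [← h1, prod_univ_sum]
  apply sum_congr rfl
  intro h _
  rw [← prod_mul_distrib]
  apply prod_congr rfl
  intro i _
  exact sq_tm w x (h i)

lemma prod_uf_tm {p q : ℕ} (g : Fin p ⊕ Fin q → ℕ) : ∏ i, uf p q (tm w x) i (g i) = (∏ i, uf p q w i (g i)) * ∏ i, FF (s3 (g i)) x ^ sgn p q i := by
  rw [← prod_mul_distrib]
  apply prod_congr rfl
  intro i _
  rcases i with i | i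
  · simp only [uf, Sum.elim_inl, sgn, pow_one, tm]
  · simp only [uf, Sum.elim_inr, sgn, tm, map_mul]
    rw [sq_conj (FF_val _ _)]

end

open Classical in
/-- the contribution of the tuples which are not trivial -/
lemma offdiag {d B : ℕ} {a : (Fin d → ℕ) → Ei} (ha : Aff d B a) (p q j M N L R : ℕ) (hN : 1 ≤ N) (hB : B ≠ 0) (hL : L ≠ 0) (hR : R ≠ 0) (w : ℕ → ℂ) (hw : ∀ n, ‖w n‖ ≤ 1)
    (hrr : ∀ n ∈ Ioc M (M + N), w n ≠ 0 → R * (B * N ^ (p + q)) ≤ rr n) (hLR : R * (M + N) ^ (2 * (p + q) + 3 * j) ≤ L) :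
    ‖∑ m ∈ box d L, (∑ g ∈ (Fintype.piFinset (fun _ : Fin p ⊕ Fin q => Ioc M (M + N))).filter (fun g => ¬ Triv g), ∏ i, uf p q (tm w (a m)) i (g i)) *
      ((Vx w (a m) M N : ℝ) : ℂ) ^ j‖ ≤ (N : ℝ) ^ (p + q + j) * ((L : ℝ) ^ d * ((1 + d) / R)) := by
  have hL0 : (0 : ℝ) < L := by exact_mod_cast Nat.pos_of_ne_zero hL
  have hR0 : (0 : ℝ) < R := by exact_mod_cast Nat.pos_of_ne_zero hR
  -- the single terms
  have h1 : ∀ g ∈ (Fintype.piFinset (fun _ : Fin p ⊕ Fin q => Ioc M (M + N))).filter (fun g => ¬ Triv g),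
      ∀ h ∈ Fintype.piFinset (fun _ : Fin j => Ioc M (M + N)),
      ‖∑ m ∈ box d L, (∏ i, uf p q (tm w (a m)) i (g i)) * ((∏ i, ((‖w (h i)‖ ^ 2 : ℝ) : ℂ)) * ∏ i, FF (s3 (h i)) (a m) ^ 3)‖ ≤ (L : ℝ) ^ d * ((1 + d) / R) := by
    intro g hg h hh
    rw [mem_filter, Fintype.mem_piFinset] at hg
    rw [Fintype.mem_piFinset] at hh
    obtain ⟨hg, hgt⟩ := hg
    have hg0 : ∀ i, g i ≠ 0 := fun i => by
      have := mem_Ioc.1 (hg i)
      omega
    have hh0 : ∀ i, h i ≠ 0 := fun i => by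
      have := mem_Ioc.1 (hh i)
      omega
    obtain ⟨Q, hQ⟩ : ∃ Q, Q = (∏ i, s3 (g i) ^ sgn p q i) * ∏ i, s3 (h i) ^ 3 := ⟨_, rfl⟩
    have hQ1 : ∏ i, s3 (g i) ^ sgn p q i ≠ 0 := prod_ne_zero_iff.2 fun i _ => pow_ne_zero _ (s3_ne (hg0 i))
    have hQ2 : ∏ i, s3 (h i) ^ 3 ≠ 0 := prod_ne_zero_iff.2 fun i _ => pow_ne_zero _ (s3_ne (hh0 i))
    have hQ0 : Q ≠ 0 := by rw [hQ]; exact Nat.mul_ne_zero hQ1 hQ2
    have hp1 : ¬ 3 ∣ ∏ i, s3 (g i) ^ sgn p q i := by
      intro hcon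
      obtain ⟨i, _, hi⟩ := (Nat.Prime.prime Nat.prime_three).exists_mem_finset_dvd hcon
      exact s3_three (hg0 i) (Nat.prime_three.dvd_of_dvd_pow hi)
    have hp2 : ¬ 3 ∣ ∏ i, s3 (h i) ^ 3 := by
      intro hcon
      obtain ⟨i, _, hi⟩ := (Nat.Prime.prime Nat.prime_three).exists_mem_finset_dvd hcon
      exact s3_three (hh0 i) (Nat.prime_three.dvd_of_dvd_pow hi)
    have hQ3 : ¬ 3 ∣ Q := by
      rw [hQ]
      intro hcon
      exact ((Nat.Prime.dvd_mul Nat.prime_three).1 hcon).elim hp1 hp2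
    have e1 : ∀ m, (∏ i, uf p q (tm w (a m)) i (g i)) * ((∏ i, ((‖w (h i)‖ ^ 2 : ℝ) : ℂ)) * ∏ i, FF (s3 (h i)) (a m) ^ 3) =
        ((∏ i, uf p q w i (g i)) * ∏ i, ((‖w (h i)‖ ^ 2 : ℝ) : ℂ)) * FF Q (a m) := by
      intro m
      rw [prod_uf_tm, hQ, FF_mul hQ1 hQ2 hp1 hp2, FF_prod _ _ (fun i _ => pow_ne_zero _ (s3_ne (hg0 i))) (fun i _ => three_pow (s3_three (hg0 i)) _),
        FF_prod _ _ (fun i _ => pow_ne_zero _ (s3_ne (hh0 i))) (fun i _ => three_pow (s3_three (hh0 i)) _),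
        prod_congr rfl (fun i _ => FF_pow (s3_ne (hg0 i)) (s3_three (hg0 i)) (a m) _), prod_congr rfl (fun i _ => FF_pow (s3_ne (hh0 i)) (s3_three (hh0 i)) (a m) _)]
      ring
    rw [sum_congr rfl (fun m _ => e1 m), ← mul_sum, norm_mul]
    by_cases hw0 : ∃ i, w (g i) = 0
    · obtain ⟨i, hi⟩ := hw0
      have e2 : ∏ i, uf p q w i (g i) = 0 := by
        apply prod_eq_zero (mem_univ i)
        rcases i with i | i
        · exact hi
        · simp only [uf, Sum.elim_inr]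
          rw [hi, map_zero]
      rw [e2, zero_mul, norm_zero, zero_mul]
      positivity
    · push Not at hw0
      have h2 : ‖(∏ i, uf p q w i (g i)) * ∏ i, ((‖w (h i)‖ ^ 2 : ℝ) : ℂ)‖ ≤ 1 := by
        rw [norm_mul]
        apply mul_le_one₀ (prod_uf_norm w hw g) (norm_nonneg _)
        rw [norm_prod]
        refine prod_le_one (fun _ _ => norm_nonneg _) (fun i _ => ?_)
        rw [Complex.norm_real, Real.norm_eq_abs, abs_of_nonneg (by positivity)]
        exact pow_le_one₀ (norm_nonneg _) (hw _)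
      unfold Triv at hgt
      push Not at hgt
      obtain ⟨n0, hn0⟩ := hgt
      rw [← sgn_sum] at hn0
      obtain ⟨i0, hi0⟩ : ∃ i, g i = n0 := by
        by_contra hcon
        push Not at hcon
        apply hn0
        rw [sum_eq_zero]
        · exact dvd_zero 3
        · intro i _
          rw [if_neg (hcon i)]
      have hn0I : n0 ∈ Ioc M (M + N) := by rw [← hi0]; exact hg i0
      have h3 := key B hB M N hN g (sgn p q) h hg hh0 n0 hn0I hn0
      rw [← hQ, Fintype.card_sum, Fintype.card_fin, Fintype.card_fin] at h3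
      have h4 := hrr n0 hn0I (by rw [← hi0]; exact hw0 i0)
      have hBN : 0 < B * N ^ (p + q) := Nat.mul_pos (Nat.pos_of_ne_zero hB) (pow_pos hN _)
      have h5 : R ≤ Zr Q B := Nat.le_of_mul_le_mul_right (h4.trans h3) hBN
      have h6 : Q ≤ (M + N) ^ (2 * (p + q) + 3 * j) := by
        rw [hQ, pow_add]
        apply Nat.mul_le_mul
        · calc ∏ i, s3 (g i) ^ sgn p q i ≤ ∏ _i : Fin p ⊕ Fin q, (M + N) ^ 2 := by
                apply prod_le_prod'
                intro i _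
                have h7 : s3 (g i) ≤ M + N := (s3_le _).trans (mem_Ioc.1 (hg i)).2
                calc s3 (g i) ^ sgn p q i ≤ (M + N) ^ sgn p q i := Nat.pow_le_pow_left h7 _
                  _ ≤ (M + N) ^ 2 := by
                      apply Nat.pow_le_pow_right (by omega)
                      rcases i with i | i
                      · simp [sgn]
                      · simp [sgn]
            _ = _ := by rw [prod_const, card_univ, Fintype.card_sum, Fintype.card_fin, Fintype.card_fin, ← pow_mul]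
        · calc ∏ i, s3 (h i) ^ 3 ≤ ∏ _i : Fin j, (M + N) ^ 3 := by
                apply prod_le_prod'
                intro i _
                exact Nat.pow_le_pow_left ((s3_le _).trans (mem_Ioc.1 (hh i)).2) _
            _ = _ := by rw [prod_const, card_univ, Fintype.card_fin, ← pow_mul]
      have h7 := box_mean ha Q L hQ0 hQ3 hL
      have h8 : (1 : ℝ) / Zr Q B + d * Q / L ≤ (1 + d) / R := by
        have h9 : (1 : ℝ) / Zr Q B ≤ 1 / R := by
          apply one_div_le_one_div_of_le hR0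
          exact_mod_cast h5
        have h10 : (d : ℝ) * Q / L ≤ d / R := by
          rw [div_le_div_iff₀ hL0 hR0]
          have h11 : (R : ℝ) * Q ≤ L := by
            exact_mod_cast (Nat.mul_le_mul_left R h6).trans hLR
          calc (d : ℝ) * Q * R = d * (R * Q) := by ring
            _ ≤ d * L := mul_le_mul_of_nonneg_left h11 (Nat.cast_nonneg _)
        rw [add_div]
        exact add_le_add h9 h10
      calc ‖(∏ i, uf p q w i (g i)) * ∏ i, ((‖w (h i)‖ ^ 2 : ℝ) : ℂ)‖ * ‖∑ m ∈ box d L, FF Q (a m)‖ ≤ 1 * ((L : ℝ) ^ d * (1 / Zr Q B + d * Q / L)) :=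
            mul_le_mul h2 h7 (norm_nonneg _) zero_le_one
        _ ≤ _ := by
            rw [one_mul]
            exact mul_le_mul_of_nonneg_left h8 (by positivity)
  -- the sum
  have e1 : ∑ m ∈ box d L, (∑ g ∈ (Fintype.piFinset (fun _ : Fin p ⊕ Fin q => Ioc M (M + N))).filter (fun g => ¬ Triv g), ∏ i, uf p q (tm w (a m)) i (g i)) *
      ((Vx w (a m) M N : ℝ) : ℂ) ^ j =
      ∑ g ∈ (Fintype.piFinset (fun _ : Fin p ⊕ Fin q => Ioc M (M + N))).filter (fun g => ¬ Triv g), ∑ h ∈ Fintype.piFinset (fun _ : Fin j => Ioc M (M + N)),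
      ∑ m ∈ box d L, (∏ i, uf p q (tm w (a m)) i (g i)) * ((∏ i, ((‖w (h i)‖ ^ 2 : ℝ) : ℂ)) * ∏ i, FF (s3 (h i)) (a m) ^ 3) := by
    rw [sum_congr rfl (fun m _ => by rw [expand_V, sum_mul_sum]), sum_comm]
    apply sum_congr rfl
    intro g _
    rw [sum_comm]
  rw [e1]
  refine (norm_sum_le _ _).trans ((sum_le_sum fun g hg => (norm_sum_le _ _).trans (sum_le_sum fun h hh => h1 g hg h hh)).trans ?_)
  rw [sum_const, sum_const, nsmul_eq_mul, nsmul_eq_mul, ← mul_assoc]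
  apply mul_le_mul_of_nonneg_right _ (by positivity)
  have h2 : ((Fintype.piFinset (fun _ : Fin p ⊕ Fin q => Ioc M (M + N))).filter (fun g => ¬ Triv g)).card ≤ N ^ (p + q) := by
    refine (card_filter_le _ _).trans (le_of_eq ?_)
    rw [Fintype.card_piFinset, prod_const, Nat.card_Ioc, Nat.add_sub_cancel_left, card_univ, Fintype.card_sum, Fintype.card_fin, Fintype.card_fin]
  have h3 : (Fintype.piFinset (fun _ : Fin j => Ioc M (M + N))).card = N ^ j := by
    rw [Fintype.card_piFinset, prod_const, Nat.card_Ioc, Nat.add_sub_cancel_left, card_univ, Fintype.card_fin]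
  rw [h3, pow_add (N : ℝ) (p + q) j]
  push_cast
  apply mul_le_mul_of_nonneg_right _ (by positivity)
  exact_mod_cast h2

open Classical in
/-- **Mixed moments over affine families.** -/
theorem core (p q j A : ℕ) : ∃ C K : ℕ, ∀ (d B : ℕ) (a : (Fin d → ℕ) → Ei), Aff d B a → d ≤ 2 → B ≠ 0 → ∀ N M L : ℕ, 2 ≤ N → B ≤ N ^ A → (M + N) ^ C ≤ L →
    ∀ w : ℕ → ℂ, (∀ n, ‖w n‖ ≤ 1) → (∀ n ∈ Ioc M (M + N), w n ≠ 0 → N ^ C ≤ rr n) →
    ‖∑ m ∈ box d L, (Sx w (a m) M N ^ p * (starRingEnd ℂ) (Sx w (a m) M N) ^ q * ((Vx w (a m) M N : ℝ) : ℂ) ^ j -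
      (if p = q then (Nat.factorial p : ℂ) * ((Vx w (a m) M N : ℝ) : ℂ) ^ (p + j) else 0))‖ ≤ K * (N : ℝ) ^ ((p + q - 1) / 2 + j) * (L : ℝ) ^ d := by
  obtain ⟨K₁, hK₁⟩ := diag p q
  refine ⟨A + 3 * (p + q) + 4 * j + 1, K₁ + 3, fun d B a ha hd hB N M L hN hBA hL w hw hrr => ?_⟩
  have hN0 : (0 : ℝ) < N := by exact_mod_cast (by omega : 0 < N)
  have hN1 : (1 : ℝ) ≤ N := by exact_mod_cast (by omega : 1 ≤ N)
  have hL0 : L ≠ 0 := by
    rintro rfl
    have : 0 < (M + N) ^ (A + 3 * (p + q) + 4 * j + 1) := pow_pos (by omega) _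
    omega
  have hI : (Ioc M (M + N)).Nonempty := ⟨M + 1, mem_Ioc.2 ⟨by omega, by omega⟩⟩
  have hIc : (Ioc M (M + N)).card ≤ N := by rw [Nat.card_Ioc]; omega
  obtain ⟨R, hR⟩ : ∃ R, R = N ^ (p + q + j) := ⟨_, rfl⟩
  have hR0 : R ≠ 0 := by rw [hR]; exact pow_ne_zero _ (by omega)
  have h1 := offdiag ha p q j M N L R (by omega) hB hL0 hR0 w hw (by
    intro n hn hwn
    refine le_trans ?_ (hrr n hn hwn)
    rw [hR]
    calc N ^ (p + q + j) * (B * N ^ (p + q)) ≤ N ^ (p + q + j) * (N ^ A * N ^ (p + q)) := Nat.mul_le_mul_left _ (Nat.mul_le_mul_right _ hBA)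
      _ = N ^ (p + q + j + (A + (p + q))) := by rw [← pow_add, ← pow_add]
      _ ≤ _ := Nat.pow_le_pow_right (by omega) (by omega)) (by
    rw [hR]
    calc N ^ (p + q + j) * (M + N) ^ (2 * (p + q) + 3 * j) ≤ (M + N) ^ (p + q + j) * (M + N) ^ (2 * (p + q) + 3 * j) :=
          Nat.mul_le_mul_right _ (Nat.pow_le_pow_left (by omega) _)
      _ = (M + N) ^ (p + q + j + (2 * (p + q) + 3 * j)) := by rw [← pow_add]
      _ ≤ (M + N) ^ (A + 3 * (p + q) + 4 * j + 1) := Nat.pow_le_pow_right (by omega) (by omega)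
      _ ≤ L := hL)
  have e1 : ∀ m, Sx w (a m) M N ^ p * (starRingEnd ℂ) (Sx w (a m) M N) ^ q * ((Vx w (a m) M N : ℝ) : ℂ) ^ j -
      (if p = q then (Nat.factorial p : ℂ) * ((Vx w (a m) M N : ℝ) : ℂ) ^ (p + j) else 0) =
      (∑ g ∈ (Fintype.piFinset (fun _ : Fin p ⊕ Fin q => Ioc M (M + N))).filter (fun g => ¬ Triv g), ∏ i, uf p q (tm w (a m)) i (g i)) * ((Vx w (a m) M N : ℝ) : ℂ) ^ j +
      (∑ g ∈ (Fintype.piFinset (fun _ : Fin p ⊕ Fin q => Ioc M (M + N))).filter (fun g => Triv g), ∏ i, uf p q (tm w (a m)) i (g i) -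
      (if p = q then (Nat.factorial p : ℂ) * ((Vx w (a m) M N : ℝ) : ℂ) ^ p else 0)) * ((Vx w (a m) M N : ℝ) : ℂ) ^ j := by
    intro m
    rw [expand_S, ← sum_filter_add_sum_filter_not (Fintype.piFinset (fun _ : Fin p ⊕ Fin q => Ioc M (M + N))) (fun g => Triv g)]
    split_ifs
    · rw [pow_add]
      ring
    · ring
  rw [sum_congr rfl (fun m _ => e1 m), sum_add_distrib]
  have h2 : ‖∑ m ∈ box d L, (∑ g ∈ (Fintype.piFinset (fun _ : Fin p ⊕ Fin q => Ioc M (M + N))).filter (fun g => Triv g), ∏ i, uf p q (tm w (a m)) i (g i) -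
      (if p = q then (Nat.factorial p : ℂ) * ((Vx w (a m) M N : ℝ) : ℂ) ^ p else 0)) * ((Vx w (a m) M N : ℝ) : ℂ) ^ j‖ ≤
      (L : ℝ) ^ d * (K₁ * (N : ℝ) ^ ((p + q - 1) / 2 + j)) := by
    refine (norm_sum_le _ _).trans ?_
    have h3 : ∀ m ∈ box d L, ‖(∑ g ∈ (Fintype.piFinset (fun _ : Fin p ⊕ Fin q => Ioc M (M + N))).filter (fun g => Triv g), ∏ i, uf p q (tm w (a m)) i (g i) -
        (if p = q then (Nat.factorial p : ℂ) * ((Vx w (a m) M N : ℝ) : ℂ) ^ p else 0)) * ((Vx w (a m) M N : ℝ) : ℂ) ^ j‖ ≤ K₁ * (N : ℝ) ^ ((p + q - 1) / 2 + j) := by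
      intro m _
      rw [norm_mul, pow_add, ← mul_assoc]
      have h4 := hK₁ (Ioc M (M + N)) N hI hIc (tm w (a m)) (tm_norm w (a m) hw)
      apply mul_le_mul h4 _ (norm_nonneg _) (by positivity)
      rw [norm_pow, Complex.norm_real, Real.norm_eq_abs, abs_of_nonneg (Vx_nonneg _ _ _ _)]
      exact pow_le_pow_left₀ (Vx_nonneg _ _ _ _) (Vx_le w (a m) hw M N) j
    have h4 : ((box d L).card : ℝ) = (L : ℝ) ^ d := by
      rw [card_box]
      push_cast
      rfl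
    rw [← h4, ← nsmul_eq_mul]
    exact sum_le_card_nsmul _ _ _ h3
  refine (norm_add_le _ _).trans ((add_le_add h1 h2).trans ?_)
  have h3 : (N : ℝ) ^ (p + q + j) * ((L : ℝ) ^ d * ((1 + d) / R)) ≤ 3 * (N : ℝ) ^ ((p + q - 1) / 2 + j) * (L : ℝ) ^ d := by
    have hRr : (R : ℝ) = (N : ℝ) ^ (p + q + j) := by rw [hR]; push_cast; rfl
    have hRp : (0 : ℝ) < (N : ℝ) ^ (p + q + j) := by positivity
    rw [hRr]
    have hd' : (d : ℝ) ≤ 2 := by exact_mod_cast hd
    have h5 : (1 : ℝ) ≤ (N : ℝ) ^ ((p + q - 1) / 2 + j) := one_le_pow₀ hN1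
    have h6 : (0 : ℝ) ≤ (L : ℝ) ^ d := by positivity
    calc (N : ℝ) ^ (p + q + j) * ((L : ℝ) ^ d * ((1 + d) / (N : ℝ) ^ (p + q + j))) = (1 + d) * (L : ℝ) ^ d := by
          field_simp
      _ ≤ 3 * (L : ℝ) ^ d := mul_le_mul_of_nonneg_right (by linarith) h6
      _ = 3 * 1 * (L : ℝ) ^ d := by ring
      _ ≤ _ := by gcongr
  push_cast
  linarith

end Pool.Agent.H18.GA
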