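import Pool.Agent.H18.GA.Three
import Pool.Graph.R_pool_sql_team_seeded_35f281b4.K7.H57.Cub.Lin

set_option autoImplicit false

/-! Mixed moments of short sums of cubic residue symbols over lines and parallelograms. -/

namespace Pool.Agent.H18.GA
open Finset
open Pool.Agent.Y692.QS
open Pool.Agent.X22.CC
open Pool.Agent.K7.H57.Cub
open Pool.Agent.TH894.NE (box mem_box card_box)

/-- the families -/
structure Fam (d B : ℕ) (a : (Fin d → ℕ) → Ei) : Prop where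
  aff : ∀ r : Fin d → ℕ, Aff d B (fun u => a (fun i => r i + 9 * u i))
  nine : ∀ r u : Fin d → ℕ, ∃ y, a (fun i => r i + 9 * u i) = a r + 9 * y

/-- the value of the symbol of `α` at `n` -/
noncomputable def sv (α : Ei) (n : ℕ) : ℂ := GG (UniqueFactorizationMonoid.factors α) (n : Ei)

/-- the short sum -/
noncomputable def SS (w : ℕ → ℂ) (M N : ℕ) (α : Ei) : ℂ := ∑ n ∈ Ioc M (M + N), w n * sv α n

/-- the variance -/
noncomputable def VV (w : ℕ → ℂ) (M N : ℕ) (α : Ei) : ℝ := ∑ n ∈ Ioc M (M + N), ‖w n * sv α n‖ ^ 2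

lemma GG_norm (P : Multiset Ei) (x : Ei) : ‖GG P x‖ ≤ 1 := by
  unfold GG
  induction P using Multiset.induction_on with
  | empty => simp
  | cons a s ih =>
    rw [Multiset.map_cons, Multiset.prod_cons, norm_mul]
    exact mul_le_one₀ (loc_norm a x) (norm_nonneg _) ih

lemma sv_norm (α : Ei) (n : ℕ) : ‖sv α n‖ ≤ 1 := GG_norm _ _

lemma GG_pow {P : Multiset Ei} (h : Gd P) (x : Ei) (k : ℕ) : GG P (x ^ k) = GG P x ^ k := by
  induction k with
  | zero =>
    rw [pow_zero, pow_zero]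
    unfold GG
    apply Multiset.prod_eq_one
    intro z hz
    rw [Multiset.mem_map] at hz
    obtain ⟨π, hπ, rfl⟩ := hz
    obtain ⟨h1, h2⟩ := h π hπ
    exact loc_one h1 (not_three h2 h1)
  | succ k ih => rw [pow_succ, GG_mul h, ih, pow_succ]

section
variable {d B : ℕ} {a : (Fin d → ℕ) → Ei}

/-- the weights of a class -/
lemma weights (ha : Fam d B a) (w : ℕ → ℂ) (hw : ∀ n, ‖w n‖ ≤ 1) (r : Fin d → ℕ) (hr : ¬ (3 : ℤ) ∣ nr (a r)) :
    ∃ w' : ℕ → ℂ, (∀ n, ‖w' n‖ ≤ 1) ∧ (∀ n, w' n ≠ 0 → w n ≠ 0) ∧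
      ∀ (u : Fin d → ℕ) (n : ℕ), n ≠ 0 → w n * sv (a (fun i => r i + 9 * u i)) n = tm w' (a (fun i => r i + 9 * u i)) n := by
  have h0 : ∀ x : Ei, ¬ (3 : ℤ) ∣ nr x → x ≠ 0 := by
    intro x hx hx0
    apply hx
    rw [hx0]
    have : nr (0 : Ei) = 0 := by decide
    rw [this]
    exact dvd_zero 3
  refine ⟨fun n => w n * (GG (UniqueFactorizationMonoid.factors (a r)) 3 ^ n.factorization 3 * FF (s3 n) (star (ep (a r)))), ?_, ?_, ?_⟩
  · intro n
    show ‖w n * (GG (UniqueFactorizationMonoid.factors (a r)) 3 ^ n.factorization 3 * FF (s3 n) (star (ep (a r))))‖ ≤ 1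
    rw [norm_mul, norm_mul, norm_pow]
    apply mul_le_one₀ (hw n) (by positivity)
    exact mul_le_one₀ (pow_le_one₀ (norm_nonneg _) (GG_norm _ _)) (norm_nonneg _) (FF_norm _ _)
  · intro n hn hwn
    apply hn
    show w n * (GG (UniqueFactorizationMonoid.factors (a r)) 3 ^ n.factorization 3 * FF (s3 n) (star (ep (a r)))) = 0
    rw [hwn, zero_mul]
  · intro u n hn
    obtain ⟨y, hy⟩ := ha.nine r u
    obtain ⟨α, hα⟩ : ∃ α, α = a (fun i => r i + 9 * u i) := ⟨_, rfl⟩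
    rw [← hα] at hy ⊢
    have h3 : ¬ (3 : ℤ) ∣ nr α := by
      obtain ⟨z, hz⟩ := nr_add (a r) y
      rw [hy, hz]
      omega
    have hP : ∀ π ∈ UniqueFactorizationMonoid.factors α, Prime π := fun π hπ => UniqueFactorizationMonoid.prime_of_factor π hπ
    have hPa := UniqueFactorizationMonoid.factors_prod (h0 α h3)
    have hQ : ∀ π ∈ UniqueFactorizationMonoid.factors (a r), Prime π := fun π hπ => UniqueFactorizationMonoid.prime_of_factor π hπ
    have hQa := UniqueFactorizationMonoid.factors_prod (h0 (a r) hr)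
    have hG := gd_of hP hPa h3
    have e1 := nine hQ hP hQa hPa hr hy
    have e2 : ep α = ep (a r) := by
      apply ep_per
      rw [hy]
      exact ⟨3 * y, by ring⟩
    have e3 : sv α n = GG (UniqueFactorizationMonoid.factors (a r)) 3 ^ n.factorization 3 * FF (s3 n) (star (ep (a r))) * FF (s3 n) α := by
      unfold sv
      have e4 : (n : Ei) = (3 : Ei) ^ n.factorization 3 * (s3 n : Ei) := by
        conv_lhs => rw [← s3_mul n]
        push_cast
        rfl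
      rw [e4, GG_mul hG, GG_pow hG, ← e1, mul_assoc, ← e2]
      congr 1
      exact recip (s3_ne hn) (s3_three hn) α h3 _ hP hPa
    rw [e3]
    unfold tm
    ring

lemma class_eq (ha : Fam d B a) (w : ℕ → ℂ) (hw : ∀ n, ‖w n‖ ≤ 1) (r : Fin d → ℕ) (hr : ¬ (3 : ℤ) ∣ nr (a r)) (M N : ℕ) :
    ∃ w' : ℕ → ℂ, (∀ n, ‖w' n‖ ≤ 1) ∧ (∀ n, w' n ≠ 0 → w n ≠ 0) ∧
      ∀ u : Fin d → ℕ, SS w M N (a (fun i => r i + 9 * u i)) = Sx w' (a (fun i => r i + 9 * u i)) M N ∧
        VV w M N (a (fun i => r i + 9 * u i)) = Vx w' (a (fun i => r i + 9 * u i)) M N := by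
  obtain ⟨w', h1, h2, h3⟩ := weights ha w hw r hr
  refine ⟨w', h1, h2, fun u => ⟨?_, ?_⟩⟩
  · unfold SS Sx
    apply sum_congr rfl
    intro n hn
    rw [mem_Ioc] at hn
    exact h3 u n (by omega)
  · unfold VV Vx
    apply sum_congr rfl
    intro n hn
    rw [mem_Ioc] at hn
    rw [h3 u n (by omega)]

end

/-- the decomposition of a box in the classes modulo nine -/
lemma box_split (d L : ℕ) (F : (Fin d → ℕ) → ℂ) : ∑ m ∈ box d (9 * L), F m = ∑ r ∈ box d 9, ∑ u ∈ box d L, F (fun i => r i + 9 * u i) := by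
  rw [← sum_product']
  symm
  refine sum_nbij' (fun z => fun i => z.1 i + 9 * z.2 i) (fun m => (fun i => m i % 9, fun i => m i / 9)) ?_ ?_ ?_ ?_ ?_
  · intro z hz
    rw [mem_product, mem_box, mem_box] at hz
    rw [mem_box]
    intro i
    have h1 := hz.1 i
    have h2 := hz.2 i
    show z.1 i + 9 * z.2 i < 9 * L
    omega
  · intro m hm
    rw [mem_box] at hm
    rw [mem_product, mem_box, mem_box]
    refine ⟨fun i => Nat.mod_lt _ (by norm_num), fun i => ?_⟩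
    have := hm i
    show m i / 9 < L
    omega
  · intro z hz
    rw [mem_product, mem_box, mem_box] at hz
    apply Prod.ext
    · funext i
      have := hz.1 i
      show (z.1 i + 9 * z.2 i) % 9 = z.1 i
      omega
    · funext i
      have := hz.1 i
      show (z.1 i + 9 * z.2 i) / 9 = z.2 i
      omega
  · intro m _
    funext i
    show m i % 9 + 9 * (m i / 9) = m i
    omega
  · intro z _
    rfl

lemma box_rest (d L : ℕ) (hL : 0 < L) (F : (Fin d → ℕ) → ℂ) (E : ℝ) (hF : ∀ m, ‖F m‖ ≤ E) :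
    ‖∑ m ∈ box d L, F m‖ ≤ ∑ r ∈ box d 9, ‖∑ u ∈ box d (L / 9), F (fun i => r i + 9 * u i)‖ + 9 * d * E * (L : ℝ) ^ d / L := by
  classical
  have hL0 : (0 : ℝ) < L := by exact_mod_cast hL
  have hE : 0 ≤ E := (norm_nonneg _).trans (hF (fun _ => 0))
  have hsub : box d (9 * (L / 9)) ⊆ box d L := by
    intro m hm
    rw [mem_box] at hm ⊢
    intro i
    have := hm i
    omega
  rw [← sum_sdiff hsub, add_comm]
  refine (norm_add_le _ _).trans (add_le_add ?_ ?_)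
  · rw [box_split]
    exact norm_sum_le _ _
  · have h3 : ‖∑ m ∈ box d L \ box d (9 * (L / 9)), F m‖ ≤ ((box d L \ box d (9 * (L / 9))).card : ℝ) * E := by
      refine (norm_sum_le _ _).trans ?_
      rw [← nsmul_eq_mul]
      exact sum_le_card_nsmul _ _ _ fun m _ => hF m
    refine h3.trans ?_
    rw [card_sdiff_of_subset hsub, card_box, card_box, Nat.cast_sub (Nat.pow_le_pow_left (by omega) d)]
    push_cast
    have h5 : 9 * (L / 9) ≤ L := by omega
    have h6 : L ≤ 9 * (L / 9) + 9 := by omega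
    have h5' : (9 : ℝ) * ((L / 9 : ℕ) : ℝ) ≤ L := by exact_mod_cast h5
    have h6' : (L : ℝ) ≤ (9 : ℝ) * ((L / 9 : ℕ) : ℝ) + 9 := by exact_mod_cast h6
    have h4 := pow_diff d (L : ℝ) (9 * ((L / 9 : ℕ) : ℝ)) 9 (by positivity) h5' (by linarith)
    rw [le_div_iff₀ hL0]
    calc ((L : ℝ) ^ d - (9 * ((L / 9 : ℕ) : ℝ)) ^ d) * E * L = (((L : ℝ) ^ d - (9 * ((L / 9 : ℕ) : ℝ)) ^ d) * L) * E := by ring
      _ ≤ (d * 9 * (L : ℝ) ^ d) * E := mul_le_mul_of_nonneg_right h4 hE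
      _ = _ := by ring

/-- the deviation from the moments of the complex normal law -/
noncomputable def dev (p q j : ℕ) (S : ℂ) (V : ℝ) : ℂ :=
  S ^ p * (starRingEnd ℂ) S ^ q * (V : ℂ) ^ j - (if p = q then (Nat.factorial p : ℂ) * (V : ℂ) ^ (p + j) else 0)

lemma dev_norm (p q j N : ℕ) (hN : 1 ≤ N) (S : ℂ) (V : ℝ) (hS : ‖S‖ ≤ N) (hV : 0 ≤ V) (hVN : V ≤ N) :
    ‖dev p q j S V‖ ≤ (1 + Nat.factorial p) * (N : ℝ) ^ (p + q + j) := by
  have hN1 : (1 : ℝ) ≤ N := by exact_mod_cast hN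
  have hVa : ‖(V : ℂ)‖ ≤ N := by
    rw [Complex.norm_real, Real.norm_eq_abs, abs_of_nonneg hV]
    exact hVN
  unfold dev
  refine (norm_sub_le _ _).trans ?_
  rw [add_mul, one_mul]
  apply add_le_add
  · rw [norm_mul, norm_mul, norm_pow, norm_pow, norm_pow, RCLike.norm_conj, pow_add, pow_add]
    gcongr
  · split_ifs
    · rw [norm_mul, norm_pow, Complex.norm_natCast]
      apply mul_le_mul_of_nonneg_left _ (Nat.cast_nonneg _)
      calc ‖(V : ℂ)‖ ^ (p + j) ≤ (N : ℝ) ^ (p + j) := pow_le_pow_left₀ (norm_nonneg _) hVa _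
        _ ≤ _ := pow_le_pow_right₀ hN1 (by omega)
    · rw [norm_zero]
      positivity

lemma SS_norm (w : ℕ → ℂ) (hw : ∀ n, ‖w n‖ ≤ 1) (M N : ℕ) (α : Ei) : ‖SS w M N α‖ ≤ N := by
  unfold SS
  refine (norm_sum_le _ _).trans ?_
  have h1 : ∑ n ∈ Ioc M (M + N), ‖w n * sv α n‖ ≤ (Ioc M (M + N)).card • (1 : ℝ) := by
    apply sum_le_card_nsmul
    intro n _
    rw [norm_mul]
    exact mul_le_one₀ (hw n) (norm_nonneg _) (sv_norm _ _)
  rw [Nat.card_Ioc, nsmul_one, Nat.add_sub_cancel_left] at h1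
  exact h1

lemma VV_nonneg (w : ℕ → ℂ) (M N : ℕ) (α : Ei) : 0 ≤ VV w M N α := sum_nonneg fun _ _ => by positivity

lemma VV_le (w : ℕ → ℂ) (hw : ∀ n, ‖w n‖ ≤ 1) (M N : ℕ) (α : Ei) : VV w M N α ≤ N := by
  unfold VV
  have h1 : ∑ n ∈ Ioc M (M + N), ‖w n * sv α n‖ ^ 2 ≤ (Ioc M (M + N)).card • (1 : ℝ) := by
    apply sum_le_card_nsmul
    intro n _
    rw [norm_mul]
    exact pow_le_one₀ (by positivity) (mul_le_one₀ (hw n) (norm_nonneg _) (sv_norm _ _))
  rw [Nat.card_Ioc, nsmul_one, Nat.add_sub_cancel_left] at h1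
  exact h1

open Classical in
/-- **Mixed moments over families.** -/
theorem fam (p q j A : ℕ) : ∃ C K : ℕ, ∀ (d B : ℕ) (a : (Fin d → ℕ) → Ei), Fam d B a → d ≤ 2 → B ≠ 0 → ∀ N M L : ℕ, 2 ≤ N → B ≤ N ^ A → (M + N) ^ C ≤ L →
    ∀ w : ℕ → ℂ, (∀ n, ‖w n‖ ≤ 1) → (∀ n ∈ Ioc M (M + N), w n ≠ 0 → N ^ C ≤ rr n) →
    ‖∑ m ∈ (box d L).filter (fun m => ¬ (3 : ℤ) ∣ nr (a m)), dev p q j (SS w M N (a m)) (VV w M N (a m))‖ ≤
      K * (N : ℝ) ^ ((p + q - 1) / 2 + j) * (L : ℝ) ^ d := by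
  obtain ⟨C, K, h⟩ := core p q j A
  refine ⟨C + (p + q + j) + 4, 81 * K + 18 * (1 + Nat.factorial p), fun d B a ha hd hB N M L hN hBA hL w hw hrr => ?_⟩
  have hN1 : (1 : ℝ) ≤ N := by exact_mod_cast (by omega : 1 ≤ N)
  have hMN : 1 ≤ M + N := by omega
  have hL1 : 16 * (M + N) ^ C ≤ L := by
    refine le_trans ?_ hL
    calc 16 * (M + N) ^ C = 2 ^ 4 * (M + N) ^ C := by norm_num
      _ ≤ (M + N) ^ 4 * (M + N) ^ C := Nat.mul_le_mul_right _ (Nat.pow_le_pow_left (by omega) 4)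
      _ = (M + N) ^ (4 + C) := by rw [← pow_add]
      _ ≤ _ := Nat.pow_le_pow_right hMN (by omega)
  have hL2 : N ^ (p + q + j) ≤ L := by
    refine le_trans ?_ hL
    calc N ^ (p + q + j) ≤ (M + N) ^ (p + q + j) := Nat.pow_le_pow_left (by omega) _
      _ ≤ _ := Nat.pow_le_pow_right hMN (by omega)
  have hLpos : 0 < L := (pow_pos (by omega : 0 < N) _).trans_le hL2
  have hL' : (M + N) ^ C ≤ L / 9 := by
    rw [Nat.le_div_iff_mul_le (by norm_num)]
    omega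
  obtain ⟨F, hF⟩ : ∃ F : (Fin d → ℕ) → ℂ, F = fun m => if (3 : ℤ) ∣ nr (a m) then 0 else dev p q j (SS w M N (a m)) (VV w M N (a m)) := ⟨_, rfl⟩
  have hFE : ∀ m, ‖F m‖ ≤ (1 + Nat.factorial p) * (N : ℝ) ^ (p + q + j) := by
    intro m
    rw [hF]
    show ‖if (3 : ℤ) ∣ nr (a m) then 0 else dev p q j (SS w M N (a m)) (VV w M N (a m))‖ ≤ _
    split_ifs
    · rw [norm_zero]
      positivity
    · exact dev_norm p q j N (by omega) _ _ (SS_norm w hw _ _ _) (VV_nonneg _ _ _ _) (VV_le w hw _ _ _)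
  have e1 : ∑ m ∈ (box d L).filter (fun m => ¬ (3 : ℤ) ∣ nr (a m)), dev p q j (SS w M N (a m)) (VV w M N (a m)) = ∑ m ∈ box d L, F m := by
    rw [sum_filter]
    apply sum_congr rfl
    intro m _
    rw [hF]
    by_cases h3 : (3 : ℤ) ∣ nr (a m)
    · rw [if_neg (not_not.2 h3)]
      show 0 = if (3 : ℤ) ∣ nr (a m) then 0 else dev p q j (SS w M N (a m)) (VV w M N (a m))
      rw [if_pos h3]
    · rw [if_pos h3]
      show _ = if (3 : ℤ) ∣ nr (a m) then 0 else dev p q j (SS w M N (a m)) (VV w M N (a m))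
      rw [if_neg h3]
  rw [e1]
  refine (box_rest d L hLpos F _ hFE).trans ?_
  have hcl : ∀ r ∈ box d 9, ‖∑ u ∈ box d (L / 9), F (fun i => r i + 9 * u i)‖ ≤ K * (N : ℝ) ^ ((p + q - 1) / 2 + j) * (L : ℝ) ^ d := by
    intro r _
    by_cases hr : (3 : ℤ) ∣ nr (a r)
    · have : ∑ u ∈ box d (L / 9), F (fun i => r i + 9 * u i) = 0 := by
        apply sum_eq_zero
        intro u _
        obtain ⟨y, hy⟩ := ha.nine r u
        have h3 : (3 : ℤ) ∣ nr (a (fun i => r i + 9 * u i)) := by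
          obtain ⟨z, hz⟩ := nr_add (a r) y
          rw [hy, hz]
          omega
        rw [hF]
        show (if (3 : ℤ) ∣ nr (a (fun i => r i + 9 * u i)) then (0 : ℂ) else _) = 0
        rw [if_pos h3]
      rw [this, norm_zero]
      positivity
    · obtain ⟨w', hw1, hw2, hw3⟩ := class_eq ha w hw r hr M N
      have h4 := h d B _ (ha.aff r) hd hB N M (L / 9) hN hBA hL' w' hw1 (by
        intro n hn hwn
        refine le_trans ?_ (hrr n hn (hw2 n hwn))
        exact Nat.pow_le_pow_right (by omega) (by omega))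
      have e2 : ∑ u ∈ box d (L / 9), F (fun i => r i + 9 * u i) = ∑ u ∈ box d (L / 9), (Sx w' (a (fun i => r i + 9 * u i)) M N ^ p * (starRingEnd ℂ) (Sx w' (a (fun i => r i + 9 * u i)) M N) ^ q *
          ((Vx w' (a (fun i => r i + 9 * u i)) M N : ℝ) : ℂ) ^ j - (if p = q then (Nat.factorial p : ℂ) * ((Vx w' (a (fun i => r i + 9 * u i)) M N : ℝ) : ℂ) ^ (p + j) else 0)) := by
        apply sum_congr rfl
        intro u _
        obtain ⟨y, hy⟩ := ha.nine r u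
        have h3 : ¬ (3 : ℤ) ∣ nr (a (fun i => r i + 9 * u i)) := by
          obtain ⟨z, hz⟩ := nr_add (a r) y
          rw [hy, hz]
          omega
        rw [hF]
        show (if (3 : ℤ) ∣ nr (a (fun i => r i + 9 * u i)) then (0 : ℂ) else dev p q j (SS w M N (a (fun i => r i + 9 * u i))) (VV w M N (a (fun i => r i + 9 * u i)))) = _
        rw [if_neg h3]
        unfold dev
        rw [(hw3 u).1, (hw3 u).2]
      rw [e2]
      refine h4.trans ?_
      apply mul_le_mul_of_nonneg_left _ (by positivity)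
      apply pow_le_pow_left₀ (Nat.cast_nonneg _)
      exact_mod_cast Nat.div_le_self L 9
  have hcard : ((box d 9).card : ℝ) ≤ 81 := by
    rw [card_box]
    have : 9 ^ d ≤ 9 ^ 2 := Nat.pow_le_pow_right (by norm_num) hd
    exact_mod_cast this
  have h5 : ∑ r ∈ box d 9, ‖∑ u ∈ box d (L / 9), F (fun i => r i + 9 * u i)‖ ≤ 81 * (K * (N : ℝ) ^ ((p + q - 1) / 2 + j) * (L : ℝ) ^ d) := by
    refine (sum_le_card_nsmul _ _ _ hcl).trans ?_
    rw [nsmul_eq_mul]
    exact mul_le_mul_of_nonneg_right hcard (by positivity)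
  have hL0 : (0 : ℝ) < L := by exact_mod_cast hLpos
  have h6 : 9 * d * ((1 + Nat.factorial p) * (N : ℝ) ^ (p + q + j)) * (L : ℝ) ^ d / L ≤ 18 * (1 + Nat.factorial p) * (N : ℝ) ^ ((p + q - 1) / 2 + j) * (L : ℝ) ^ d := by
    rw [div_le_iff₀ hL0]
    have hd' : (d : ℝ) ≤ 2 := by exact_mod_cast hd
    have h7 : (N : ℝ) ^ (p + q + j) ≤ L := by exact_mod_cast hL2
    have h8 : (1 : ℝ) ≤ (N : ℝ) ^ ((p + q - 1) / 2 + j) := one_le_pow₀ hN1
    have h9 : (0 : ℝ) ≤ (L : ℝ) ^ d := by positivity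
    have h10 : (0 : ℝ) ≤ (Nat.factorial p : ℝ) := Nat.cast_nonneg _
    calc 9 * d * ((1 + Nat.factorial p) * (N : ℝ) ^ (p + q + j)) * (L : ℝ) ^ d ≤ 9 * 2 * ((1 + Nat.factorial p) * L) * (L : ℝ) ^ d := by gcongr
      _ = 18 * (1 + Nat.factorial p) * 1 * (L : ℝ) ^ d * L := by ring
      _ ≤ _ := by gcongr
  push_cast
  linarith

/-- lines -/
lemma line_fam (β γ : Ei) : Fam 1 (9 * (dt β γ).natAbs) (fun m => β + (m 0 : Ei) * γ) where
  aff r := by
    have h := line_aff (β + (r 0 : Ei) * γ) (9 * γ)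
    have e1 : (dt (β + (r 0 : Ei) * γ) (9 * γ)).natAbs = 9 * (dt β γ).natAbs := by
      have : dt (β + (r 0 : Ei) * γ) (9 * γ) = 9 * dt β γ := by
        unfold dt
        simp only [QuadraticAlgebra.re_add, QuadraticAlgebra.im_add, mul_re, mul_im]
        have e1 : (9 : Ei).re = 9 := rfl
        have e2 : (9 : Ei).im = 0 := rfl
        have e3 : ((r 0 : ℕ) : Ei).re = r 0 := by simp
        have e4 : ((r 0 : ℕ) : Ei).im = 0 := by simp
        rw [e1, e2, e3, e4]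
        ring
      rw [this, Int.natAbs_mul]
      rfl
    rw [e1] at h
    have e2 : (fun u : Fin 1 → ℕ => β + (((r 0 + 9 * u 0 : ℕ)) : Ei) * γ) = (fun m : Fin 1 → ℕ => β + (r 0 : Ei) * γ + (m 0 : Ei) * (9 * γ)) := by
      funext u
      push_cast
      ring
    show Aff 1 _ (fun u : Fin 1 → ℕ => β + (((r 0 + 9 * u 0 : ℕ)) : Ei) * γ)
    rw [e2]
    exact h
  nine r u := by
    refine ⟨(u 0 : Ei) * γ, ?_⟩
    show β + (((r 0 + 9 * u 0 : ℕ)) : Ei) * γ = _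
    push_cast
    ring

/-- parallelograms -/
lemma par_fam (β γ₁ γ₂ : Ei) : Fam 2 (81 * (dt γ₁ γ₂).natAbs) (fun m => β + (m 0 : Ei) * γ₁ + (m 1 : Ei) * γ₂) where
  aff r := by
    have h := par_aff (β + (r 0 : Ei) * γ₁ + (r 1 : Ei) * γ₂) (9 * γ₁) (9 * γ₂)
    have e1 : (dt (9 * γ₁) (9 * γ₂)).natAbs = 81 * (dt γ₁ γ₂).natAbs := by
      have : dt (9 * γ₁) (9 * γ₂) = 81 * dt γ₁ γ₂ := by
        unfold dt
        simp only [mul_re, mul_im]
        have e1 : (9 : Ei).re = 9 := rfl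
        have e2 : (9 : Ei).im = 0 := rfl
        rw [e1, e2]
        ring
      rw [this, Int.natAbs_mul]
      rfl
    rw [e1] at h
    have e2 : (fun u : Fin 2 → ℕ => β + (((r 0 + 9 * u 0 : ℕ)) : Ei) * γ₁ + (((r 1 + 9 * u 1 : ℕ)) : Ei) * γ₂) =
        (fun m : Fin 2 → ℕ => β + (r 0 : Ei) * γ₁ + (r 1 : Ei) * γ₂ + (m 0 : Ei) * (9 * γ₁) + (m 1 : Ei) * (9 * γ₂)) := by
      funext u
      push_cast
      ring
    show Aff 2 _ (fun u : Fin 2 → ℕ => β + (((r 0 + 9 * u 0 : ℕ)) : Ei) * γ₁ + (((r 1 + 9 * u 1 : ℕ)) : Ei) * γ₂)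
    rw [e2]
    exact h
  nine r u := by
    refine ⟨(u 0 : Ei) * γ₁ + (u 1 : Ei) * γ₂, ?_⟩
    show β + (((r 0 + 9 * u 0 : ℕ)) : Ei) * γ₁ + (((r 1 + 9 * u 1 : ℕ)) : Ei) * γ₂ = _
    push_cast
    ring

end Pool.Agent.H18.GA
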