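import Pool.Agent.H18.GA.Fam
import Pool.Agent.H18.GA.Chf

set_option autoImplicit false

/-! Typical positions; the limit law over families. -/

namespace Pool.Agent.H18.GA
open Finset
open Pool.Agent.Y692.QS
open Pool.Agent.X22.CC
open Pool.Agent.K7.H57.Cub
open Pool.Agent.TH894.NE (box mem_box card_box)

lemma rr_pos (n : ℕ) : 0 < rr n := by
  unfold rr
  apply prod_pos
  intro p hp
  rw [mem_filter] at hp
  exact (Nat.prime_of_mem_primeFactors hp.1).pos

lemma cf_dvd_rr {n : ℕ} (hn : n ≠ 0) : cf n ∣ (3 * rr n) ^ 2 := by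
  have h0 : 3 * rr n ≠ 0 := Nat.mul_ne_zero (by norm_num) (rr_pos n).ne'
  rw [← Nat.factorization_prime_le_iff_dvd (cf_ne n) (pow_ne_zero _ h0)]
  intro p hp
  rw [cf_app, Nat.factorization_pow]
  show n.factorization p % 3 ≤ 2 * (3 * rr n).factorization p
  by_cases h3 : 3 ∣ n.factorization p
  · omega
  · have hpn : p ∣ n := by
      by_contra hcon
      apply h3
      rw [Nat.factorization_eq_zero_of_not_dvd hcon]
      exact dvd_zero 3
    have h1 : p ∣ 3 * rr n := by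
      by_cases hp3 : p = 3
      · rw [hp3]
        exact dvd_mul_right _ _
      · apply Dvd.dvd.mul_left
        unfold rr
        apply dvd_prod_of_mem (fun p => p)
        rw [mem_filter, Nat.mem_primeFactors]
        exact ⟨⟨hp, hpn, hn⟩, hp3, h3⟩
    have h2 := (hp.dvd_iff_one_le_factorization h0).1 h1
    omega

/-- the number of the integers with a small radical -/
lemma cnt_small (Y T c : ℕ) (hc : Y < (c + 1) ^ 3) : ((Icc 1 Y).filter (fun n => rr n < T)).card ≤ 9 * T ^ 2 * c := by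
  have h1 : ((Icc 1 Y).filter (fun n => rr n < T)).card ≤ (range (9 * T ^ 2) ×ˢ Icc 1 c).card := by
    apply card_le_card_of_injOn (fun n => (cf n, cr n))
    · intro n hn
      rw [mem_coe, mem_filter, mem_Icc] at hn
      have hn0 : n ≠ 0 := by omega
      rw [mem_coe, mem_product, mem_range, mem_Icc]
      refine ⟨?_, Nat.pos_of_ne_zero (cr_ne n), ?_⟩
      · have h2 := Nat.le_of_dvd (pow_pos (Nat.mul_pos (by norm_num) (rr_pos n)) 2) (cf_dvd_rr hn0)
        have h3 : rr n < T := hn.2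
        show cf n < 9 * T ^ 2
        have h4 : (3 * rr n) ^ 2 < 9 * T ^ 2 := by nlinarith
        omega
      · have h2 := cf_mul_cr hn0
        have h3 := Nat.pos_of_ne_zero (cf_ne n)
        have h4 : cr n ^ 3 ≤ n := by
          conv_rhs => rw [← h2]
          exact Nat.le_mul_of_pos_left _ h3
        by_contra hcon
        push Not at hcon
        have h5 : (c + 1) ^ 3 ≤ cr n ^ 3 := Nat.pow_le_pow_left hcon 3
        omega
    · intro n hn n' hn' h
      rw [mem_coe, mem_filter, mem_Icc] at hn hn'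
      have h1 : cf n = cf n' := congrArg Prod.fst h
      have h2 : cr n = cr n' := congrArg Prod.snd h
      rw [← cf_mul_cr (by omega : n ≠ 0), ← cf_mul_cr (by omega : n' ≠ 0), h1, h2]
  rw [card_product, card_range, Nat.card_Icc, Nat.add_sub_cancel] at h1
  exact h1

/-- **Typical positions.** -/
theorem positions (C : ℕ) : ∃ D : ℕ, ∀ N X : ℕ, 2 ≤ N → N ^ D ≤ X →
    ((range X).filter (fun M => ∃ n ∈ Ioc M (M + N), rr n < N ^ C)).card ^ 2 ≤ X := by
  classical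
  refine ⟨12 * C + 28, fun N X hN hX => ?_⟩
  have hX1 : N ≤ X := (Nat.le_self_pow (by omega) N).trans hX
  obtain ⟨c, hc1, hc2⟩ : ∃ c : ℕ, c ^ 3 ≤ X + N ∧ X + N < (c + 1) ^ 3 := by
    have h1 : ∃ c, X + N < (c + 1) ^ 3 := ⟨X + N, lt_of_lt_of_le (Nat.lt_succ_self _) (Nat.le_self_pow (by norm_num) _)⟩
    refine ⟨Nat.find h1, ?_, Nat.find_spec h1⟩
    rcases Nat.eq_zero_or_pos (Nat.find h1) with h0 | h0
    · rw [h0]
      simp
    · have h2 := Nat.find_min h1 (Nat.sub_lt h0 one_pos)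
      have e : Nat.find h1 - 1 + 1 = Nat.find h1 := Nat.sub_add_cancel h0
      rw [e] at h2
      omega
  have h1 : ((range X).filter (fun M => ∃ n ∈ Ioc M (M + N), rr n < N ^ C)).card ≤ N * (9 * (N ^ C) ^ 2 * c) := by
    have h2 : (range X).filter (fun M => ∃ n ∈ Ioc M (M + N), rr n < N ^ C) ⊆
        ((range N) ×ˢ ((Icc 1 (X + N)).filter (fun n => rr n < N ^ C))).image (fun z => z.2 - (z.1 + 1)) := by
      intro M hM
      rw [mem_filter, mem_range] at hM
      obtain ⟨hMX, n, hn, hr⟩ := hM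
      rw [mem_Ioc] at hn
      rw [mem_image]
      refine ⟨(n - M - 1, n), ?_, ?_⟩
      · rw [mem_product, mem_range, mem_filter, mem_Icc]
        exact ⟨by show n - M - 1 < N; omega, ⟨by show 1 ≤ n; omega, by show n ≤ X + N; omega⟩, hr⟩
      · show n - (n - M - 1 + 1) = M
        omega
    refine (card_le_card h2).trans (card_image_le.trans ?_)
    rw [card_product, card_range]
    exact Nat.mul_le_mul_left _ (cnt_small (X + N) (N ^ C) c hc2)
  obtain ⟨G, hG⟩ : ∃ G, G = ((range X).filter (fun M => ∃ n ∈ Ioc M (M + N), rr n < N ^ C)).card := ⟨_, rfl⟩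
  rw [← hG] at h1 ⊢
  have h2 : (G ^ 2) ^ 3 ≤ X ^ 3 := by
    calc (G ^ 2) ^ 3 = G ^ 6 := by ring
      _ ≤ (N * (9 * (N ^ C) ^ 2 * c)) ^ 6 := Nat.pow_le_pow_left h1 6
      _ = 531441 * N ^ (12 * C + 6) * (c ^ 3) ^ 2 := by
          rw [pow_add, pow_mul]
          ring
      _ ≤ 531441 * N ^ (12 * C + 6) * (X + N) ^ 2 := Nat.mul_le_mul_left _ (Nat.pow_le_pow_left hc1 2)
      _ ≤ 531441 * N ^ (12 * C + 6) * (2 * X) ^ 2 := Nat.mul_le_mul_left _ (Nat.pow_le_pow_left (by omega) 2)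
      _ = (2125764 * N ^ (12 * C + 6)) * X ^ 2 := by ring
      _ ≤ X * X ^ 2 := by
          apply Nat.mul_le_mul_right
          refine le_trans ?_ hX
          calc 2125764 * N ^ (12 * C + 6) ≤ 2 ^ 22 * N ^ (12 * C + 6) := Nat.mul_le_mul_right _ (by norm_num)
            _ ≤ N ^ 22 * N ^ (12 * C + 6) := Nat.mul_le_mul_right _ (Nat.pow_le_pow_left hN 22)
            _ = N ^ (12 * C + 28) := by rw [← pow_add]; congr 1; ring
      _ = X ^ 3 := by ring
  exact le_of_pow_le_pow_left₀ (by norm_num) (Nat.zero_le _) h2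

lemma dv_scale (p q j N : ℕ) (hN : 1 ≤ N) (S : ℂ) (V : ℝ) :
    dv p q j (S / (Real.sqrt N : ℂ)) (V / N) = dev p q j S V / ((Real.sqrt N : ℂ) ^ (p + q) * (N : ℂ) ^ j) := by
  have hN0 : (0 : ℝ) < N := by exact_mod_cast hN
  have hs : (Real.sqrt N : ℂ) ≠ 0 := by exact_mod_cast (Real.sqrt_pos.2 hN0).ne'
  have hNc : (N : ℂ) ≠ 0 := by exact_mod_cast hN0.ne'
  have hsq : (Real.sqrt N : ℂ) ^ 2 = (N : ℂ) := by
    rw [← Complex.ofReal_pow, Real.sq_sqrt hN0.le]
    simp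
  unfold dv dev
  rw [sub_div]
  congr 1
  · rw [map_div₀, Complex.conj_ofReal, div_pow, div_pow, Complex.ofReal_div, Complex.ofReal_natCast, div_pow, pow_add]
    field_simp
  · split_ifs with h
    · subst h
      rw [Complex.ofReal_div, Complex.ofReal_natCast, div_pow, ← two_mul, pow_mul, hsq, pow_add (N : ℂ), mul_div_assoc]
    · rw [zero_div]

lemma scale_bound (p q j N : ℕ) (hN : 1 ≤ N) (hpq : 1 ≤ p + q) (K : ℝ) (hK : 0 ≤ K) :
    K * (N : ℝ) ^ ((p + q - 1) / 2 + j) / (Real.sqrt N ^ (p + q) * (N : ℝ) ^ j) ≤ K / Real.sqrt N := by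
  have hN0 : (0 : ℝ) < N := by exact_mod_cast hN
  have hN1 : (1 : ℝ) ≤ N := by exact_mod_cast hN
  have hs : 0 < Real.sqrt N := Real.sqrt_pos.2 hN0
  have hs1 : 1 ≤ Real.sqrt N := Real.one_le_sqrt.2 hN1
  have hsq : Real.sqrt N ^ 2 = (N : ℝ) := Real.sq_sqrt hN0.le
  rw [div_le_div_iff₀ (by positivity) hs]
  have h1 : (N : ℝ) ^ ((p + q - 1) / 2) * Real.sqrt N ≤ Real.sqrt N ^ (p + q) := by
    rw [← hsq, ← pow_mul, Real.sqrt_sq (Real.sqrt_nonneg _), ← pow_succ]
    · apply pow_le_pow_right₀ hs1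
      omega
  calc K * (N : ℝ) ^ ((p + q - 1) / 2 + j) * Real.sqrt N = K * ((N : ℝ) ^ ((p + q - 1) / 2) * Real.sqrt N) * (N : ℝ) ^ j := by
        rw [pow_add]
        ring
    _ ≤ K * Real.sqrt N ^ (p + q) * (N : ℝ) ^ j := by gcongr
    _ = _ := by ring

/-- the difference of the exponentials -/
noncomputable def cdev (z : ℂ) (s : ℝ) (N : ℕ) (S : ℂ) (V : ℝ) : ℂ :=
  Complex.exp (Complex.I * (((starRingEnd ℂ) z * S).re / Real.sqrt N + s * (V / N) : ℝ)) -
    Complex.exp (-((‖z‖ ^ 2 / 4 * (V / N) : ℝ) : ℂ) + Complex.I * (s * (V / N) : ℝ))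

open Classical in
/-- **The limit law over families.** -/
theorem law (A : ℕ) (R ε : ℝ) (hε : 0 < ε) : ∃ C N₀ : ℕ, ∀ (d B : ℕ) (a : (Fin d → ℕ) → Ei), Fam d B a → d ≤ 2 → B ≠ 0 → ∀ N M L : ℕ, N₀ ≤ N → B ≤ N ^ A → (M + N) ^ C ≤ L →
    ∀ w : ℕ → ℂ, (∀ n, ‖w n‖ ≤ 1) → (∀ n ∈ Ioc M (M + N), w n ≠ 0 → N ^ C ≤ rr n) → ∀ (z : ℂ) (s : ℝ), ‖z‖ ≤ R → |s| ≤ R →
    ‖∑ m ∈ (box d L).filter (fun m => ¬ (3 : ℤ) ∣ nr (a m)), cdev z s N (SS w M N (a m)) (VV w M N (a m))‖ ≤ ε * (L : ℝ) ^ d := by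
  obtain ⟨D, η, hη, h⟩ := chf (max R 1) ε (le_max_right _ _) hε
  choose Cf Kf hf using fun (v : ℕ × ℕ × ℕ) => fam v.1 v.2.1 v.2.2 A
  obtain ⟨C, hC⟩ : ∃ C, C = ∑ v ∈ range (D + 1) ×ˢ (range (D + 1) ×ˢ range (D + 1)), Cf v := ⟨_, rfl⟩
  obtain ⟨K, hK⟩ : ∃ K, K = ∑ v ∈ range (D + 1) ×ˢ (range (D + 1) ×ˢ range (D + 1)), Kf v := ⟨_, rfl⟩
  obtain ⟨N₁, hN₁⟩ := exists_nat_gt ((K / η) ^ 2)
  refine ⟨C, N₁ + 2, fun d B a ha hd hB N M L hN hBA hL w hw hrr z s hz hs => ?_⟩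
  have hN0 : (0 : ℝ) < N := by exact_mod_cast (by omega : 0 < N)
  have hMN : 1 ≤ M + N := by omega
  have hs0 : 0 < Real.sqrt N := Real.sqrt_pos.2 hN0
  have hKN : (K : ℝ) / Real.sqrt N ≤ η := by
    have h1 : (K / η : ℝ) ^ 2 ≤ N := by
      have : (N₁ : ℝ) ≤ N := by exact_mod_cast (by omega : N₁ ≤ N)
      linarith
    have h2 : (K : ℝ) / η ≤ Real.sqrt N := Real.le_sqrt_of_sq_le h1
    rw [div_le_iff₀ hη] at h2
    rw [div_le_iff₀ hs0]
    linarith
  have h1 := h ((box d L).filter (fun m => ¬ (3 : ℤ) ∣ nr (a m))) (fun m => SS w M N (a m) / (Real.sqrt N : ℂ)) (fun m => VV w M N (a m) / N) ((L : ℝ) ^ d) (by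
    have h2 : (((box d L).filter (fun m => ¬ (3 : ℤ) ∣ nr (a m))).card : ℝ) ≤ ((box d L).card : ℝ) := by exact_mod_cast card_filter_le _ _
    refine h2.trans (le_of_eq ?_)
    rw [card_box]
    push_cast
    rfl) (by
    intro m _
    refine ⟨div_nonneg (VV_nonneg _ _ _ _) hN0.le, ?_⟩
    rw [div_le_one hN0]
    exact VV_le w hw M N (a m)) (by
    intro p q j hp hq hj
    rw [sum_congr rfl (fun m _ => dv_scale p q j N (by omega) (SS w M N (a m)) (VV w M N (a m))), ← sum_div, norm_div, norm_mul, norm_pow, norm_pow, Complex.norm_real,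
      Complex.norm_natCast, Real.norm_eq_abs, abs_of_nonneg hs0.le]
    rcases Nat.eq_zero_or_pos (p + q) with h0 | h0
    · have hp0 : p = 0 := by omega
      have hq0 : q = 0 := by omega
      have e : ∀ m ∈ (box d L).filter (fun m => ¬ (3 : ℤ) ∣ nr (a m)), dev p q j (SS w M N (a m)) (VV w M N (a m)) = 0 := by
        intro m _
        rw [hp0, hq0]
        unfold dev
        simp
      rw [sum_congr rfl e, sum_const_zero, norm_zero, zero_div]
      positivity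
    · have hv : (p, q, j) ∈ range (D + 1) ×ˢ (range (D + 1) ×ˢ range (D + 1)) := by
        rw [mem_product, mem_product, mem_range, mem_range, mem_range]
        exact ⟨by show p < D + 1; omega, by show q < D + 1; omega, by show j < D + 1; omega⟩
      have hCv : Cf (p, q, j) ≤ C := by
        rw [hC]
        exact single_le_sum (f := Cf) (fun _ _ => Nat.zero_le _) hv
      have hKv : Kf (p, q, j) ≤ K := by
        rw [hK]
        exact single_le_sum (f := Kf) (fun _ _ => Nat.zero_le _) hv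
      have h2 := hf (p, q, j) d B a ha hd hB N M L (by omega) hBA ((Nat.pow_le_pow_right hMN hCv).trans hL) w hw (by
        intro n hn hwn
        exact (Nat.pow_le_pow_right (by omega) hCv).trans (hrr n hn hwn))
      have h3 : (Kf (p, q, j) : ℝ) * (N : ℝ) ^ ((p + q - 1) / 2 + j) * (L : ℝ) ^ d ≤ (K : ℝ) * (N : ℝ) ^ ((p + q - 1) / 2 + j) * (L : ℝ) ^ d := by
        have : (Kf (p, q, j) : ℝ) ≤ K := by exact_mod_cast hKv
        gcongr
      calc ‖∑ m ∈ (box d L).filter (fun m => ¬ (3 : ℤ) ∣ nr (a m)), dev p q j (SS w M N (a m)) (VV w M N (a m))‖ / (Real.sqrt N ^ (p + q) * (N : ℝ) ^ j) ≤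
            ((K : ℝ) * (N : ℝ) ^ ((p + q - 1) / 2 + j) * (L : ℝ) ^ d) / (Real.sqrt N ^ (p + q) * (N : ℝ) ^ j) :=
            div_le_div_of_nonneg_right (h2.trans h3) (by positivity)
        _ = (K : ℝ) * (N : ℝ) ^ ((p + q - 1) / 2 + j) / (Real.sqrt N ^ (p + q) * (N : ℝ) ^ j) * (L : ℝ) ^ d := by ring
        _ ≤ K / Real.sqrt N * (L : ℝ) ^ d := mul_le_mul_of_nonneg_right (scale_bound p q j N (by omega) h0 K (Nat.cast_nonneg _)) (by positivity)
        _ ≤ η * (L : ℝ) ^ d := mul_le_mul_of_nonneg_right hKN (by positivity)) z s (hz.trans (le_max_left _ _)) (hs.trans (le_max_left _ _))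
  refine le_trans (le_of_eq ?_) h1
  congr 1
  apply sum_congr rfl
  intro m _
  unfold cdev
  have e : ((starRingEnd ℂ) z * SS w M N (a m)).re / Real.sqrt N = ((starRingEnd ℂ) z * (SS w M N (a m) / (Real.sqrt N : ℂ))).re := by
    rw [← mul_div_assoc, Complex.div_ofReal_re]
  rw [e]

end Pool.Agent.H18.GA
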