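import Pool.Agent.H18.GA.Core

set_option autoImplicit false

/-! The cubic residue symbol of three modulo `α` depends on `α` modulo nine only. -/

namespace Pool.Agent.H18.GA
open Finset
open Pool.Agent.Y692.QS
open Pool.Agent.X22.CC
open Pool.Agent.K7.H57.Cub
open Pool.Agent.Y715.T.RecG (Pq)
open Pool.Agent.Y715.T.Rec (nn)

/-- the symbol modulo the product of `P` -/
noncomputable def GG (P : Multiset Ei) (x : Ei) : ℂ := (P.map (fun π => loc π x)).prod

/-- a multiset of primes not dividing three -/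
def Gd (P : Multiset Ei) : Prop := ∀ π ∈ P, Prime π ∧ ¬ (3 : ℤ) ∣ nr π

lemma Gd.of_cons {a : Ei} {P : Multiset Ei} (h : Gd (a ::ₘ P)) : (Prime a ∧ ¬ (3 : ℤ) ∣ nr a) ∧ Gd P :=
  ⟨h a (Multiset.mem_cons_self a P), fun π hπ => h π (Multiset.mem_cons_of_mem hπ)⟩

lemma gd_of {P : Multiset Ei} {α : Ei} (hP : ∀ π ∈ P, Prime π) (ha : Associated P.prod α) (h3 : ¬ (3 : ℤ) ∣ nr α) : Gd P := by
  intro π hπ
  refine ⟨hP π hπ, fun h => h3 (h.trans (nr_dvd ?_))⟩
  exact (Multiset.dvd_prod hπ).trans ha.dvd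

lemma GG_congr {P : Multiset Ei} (h : Gd P) {x y : Ei} (hxy : P.prod ∣ x - y) : GG P x = GG P y := by
  unfold GG
  congr 1
  apply Multiset.map_congr rfl
  intro π hπ
  obtain ⟨h1, h2⟩ := h π hπ
  exact loc_congr h1 (not_three h2 h1) ((Multiset.dvd_prod hπ).trans hxy)

lemma GG_mul {P : Multiset Ei} (h : Gd P) (x y : Ei) : GG P (x * y) = GG P x * GG P y := by
  unfold GG
  rw [← Multiset.prod_map_mul]
  congr 1
  apply Multiset.map_congr rfl
  intro π hπ
  obtain ⟨h1, h2⟩ := h π hπ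
  exact loc_mul h1 (not_three h2 h1) x y

lemma GG_neg {P : Multiset Ei} (h : Gd P) (x : Ei) : GG P (-x) = GG P x := by
  unfold GG
  congr 1
  apply Multiset.map_congr rfl
  intro π hπ
  obtain ⟨h1, h2⟩ := h π hπ
  exact loc_neg h1 (not_three h2 h1) x

/-- reciprocity -/
lemma GG_rec {P Q : Multiset Ei} (hP : Gd P) (hQ : Gd Q) : GG P (ns Q.prod) = GG Q (ns P.prod) := by
  have key : ∀ {P Q : Multiset Ei}, Gd P → Gd Q → GG P (ns Q.prod) = (P.map (fun π => (Q.map (fun ρ => loc (ns π) (ns ρ))).prod)).prod := by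
    intro P Q hP hQ
    unfold GG
    congr 1
    apply Multiset.map_congr rfl
    intro π hπ
    obtain ⟨h1, h2⟩ := hP π hπ
    have h4 := pq_ns h2 h1
    rw [loc_assoc h1 (not_three h2 h1) (assoc_ns h2), ns_prod, loc_prod h4.prime h4.norm, Multiset.map_map]
    rfl
  rw [key hP hQ, key hQ hP, Multiset.prod_map_prod_map]
  congr 1
  apply Multiset.map_congr rfl
  intro ρ hρ
  congr 1
  apply Multiset.map_congr rfl
  intro π hπ
  obtain ⟨h1, h2⟩ := hQ ρ hρ
  obtain ⟨h6, h7⟩ := hP π hπ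
  exact loc_rec (pq_ns h2 h1) (pq_ns h7 h6)

lemma GG_assoc {P Q : Multiset Ei} (hP : Gd P) (hQ : Gd Q) (h : Associated P.prod Q.prod) (x : Ei) : GG P x = GG Q x := by
  unfold GG
  apply prod_rel
  · apply UniqueFactorizationMonoid.factors_unique
    · intro ρ hρ
      exact (hP ρ hρ).1.irreducible
    · intro ρ hρ
      exact (hQ ρ hρ).1.irreducible
    · exact h
  · intro ρ hρ
    obtain ⟨h1, h4⟩ := hP ρ hρ
    exact ⟨h1, not_three h4 h1⟩

/-- the shift -/
lemma shift {P Q : Multiset Ei} (hP : Gd P) (hQ : Gd Q) (c : Ei) (h1 : ns P.prod = P.prod) (h2 : ns Q.prod = Q.prod) (h : Q.prod = P.prod + c) :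
    GG P c = GG Q c := by
  have e1 : GG P c = GG P (ns Q.prod) := by
    apply GG_congr hP
    rw [h2, h]
    exact ⟨-1, by ring⟩
  have e2 : GG Q (ns P.prod) = GG Q (-c) := by
    apply GG_congr hQ
    rw [h1, h]
    exact ⟨1, by ring⟩
  rw [e1, GG_rec hP hQ, e2, GG_neg hQ]

lemma ns_self {x : Ei} (h : (3 : Ei) ∣ x - 1) : ns x = x := by
  have h1 : ep x = ep 1 := ep_per h
  have h2 : ep (1 : Ei) = 1 := ep_unit isUnit_one
  unfold ns
  rw [h1, h2, star_one, one_mul]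

lemma nr_add (x y : Ei) : ∃ z : ℤ, nr (x + 9 * y) = nr x + 9 * z := by
  refine ⟨2 * x.re * y.re - x.re * y.im - x.im * y.re + 2 * x.im * y.im + 9 * nr y, ?_⟩
  have e1 : (x + 9 * y).re = x.re + 9 * y.re := by
    rw [QuadraticAlgebra.re_add, mul_re]
    have e1 : (9 : Ei).re = 9 := rfl
    have e2 : (9 : Ei).im = 0 := rfl
    rw [e1, e2]
    ring
  have e2 : (x + 9 * y).im = x.im + 9 * y.im := by
    rw [QuadraticAlgebra.im_add, mul_im]
    have e1 : (9 : Ei).re = 9 := rfl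
    have e2 : (9 : Ei).im = 0 := rfl
    rw [e1, e2]
    ring
  unfold nr
  rw [e1, e2]
  ring

/-- the symbol of the unit -/
lemma GG_w {P : Multiset Ei} (hP : Gd P) : ∃ u : ℤ, nr P.prod = 1 + 3 * u ∧ GG P w = wC ^ ((u : ZMod 3)).val := by
  induction P using Multiset.induction_on with
  | empty =>
    refine ⟨0, ?_, ?_⟩
    · rw [Multiset.prod_zero, nr_one]
      norm_num
    · unfold GG
      simp
  | cons a P ih =>
    obtain ⟨⟨h1, h2⟩, h3⟩ := hP.of_cons
    obtain ⟨u, hu, hu'⟩ := ih h3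
    have h4 : ∃ v : ℤ, nr a = 1 + 3 * v ∧ loc a w = wC ^ ((v : ZMod 3)).val := by
      have h5 : nr a % 3 = 1 := by
        have h6 : ((nr a : ℤ) : ZMod 3) ≠ 0 := by
          intro h'
          exact h2 ((ZMod.intCast_zmod_eq_zero_iff_dvd _ 3).1 h')
        rw [nr_mod] at h6
        have h7 : ((nr a : ℤ) : ZMod 3) = ((1 : ℤ) : ZMod 3) := by
          rw [nr_mod]
          generalize ((a.re : ℤ) : ZMod 3) + ((a.im : ℤ) : ZMod 3) = z at *
          revert z
          decide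
        have h8 := (ZMod.intCast_eq_intCast_iff _ _ 3).1 h7
        exact h8
      refine ⟨nr a / 3, by omega, ?_⟩
      have hw : ¬ a ∣ w := by
        intro h
        have : IsUnit (w : Ei) := by
          rw [isUnit_iff]
          decide
        exact h1.not_isUnit (isUnit_of_dvd_unit h this)
      rw [loc_ne hw]
      congr 2
      apply Pool.Agent.Y715.T.RecG.cs_of h1 (not_three h2 h1)
      have e1 : (((nr a / 3 : ℤ) : ZMod 3)).val = nn a % 3 := by
        have e2 : nr a / 3 = (nn a : ℤ) := by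
          unfold nn
          have := nr_nonneg a
          omega
        rw [e2, Int.cast_natCast, ZMod.val_natCast]
      rw [e1]
      have e3 : (w : Ei) ^ nn a = w ^ (nn a % 3) := by
        conv_lhs => rw [← Nat.mod_add_div (nn a) 3, pow_add, pow_mul]
        have e4 : (w : Ei) ^ 3 = 1 := by decide
        rw [e4, one_pow, mul_one]
      rw [e3, sub_self]
      exact dvd_zero _
    obtain ⟨v, hv, hv'⟩ := h4
    refine ⟨v + u + 3 * (v * u), ?_, ?_⟩
    · rw [Multiset.prod_cons, nr_mul, hu, hv]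
      ring
    · have e1 : GG (a ::ₘ P) w = loc a w * GG P w := by
        unfold GG
        rw [Multiset.map_cons, Multiset.prod_cons]
      rw [e1, hu', hv', ← wC_add]
      congr 2
      push_cast
      have h3 : (3 : ZMod 3) = 0 := rfl
      rw [h3]
      ring

lemma GG_ne_zero_w {P : Multiset Ei} (hP : Gd P) : GG P w ≠ 0 := by
  obtain ⟨u, _, h⟩ := GG_w hP
  rw [h]
  apply pow_ne_zero
  intro h0
  have := wC_norm
  rw [h0, norm_zero] at this
  exact zero_ne_one this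

lemma GG_w_congr {P Q : Multiset Ei} (hP : Gd P) (hQ : Gd Q) (y : Ei) (h : Q.prod = P.prod + 9 * y) : GG P w = GG Q w := by
  obtain ⟨u, hu, hu'⟩ := GG_w hP
  obtain ⟨v, hv, hv'⟩ := GG_w hQ
  obtain ⟨z, hz⟩ := nr_add P.prod y
  rw [← h] at hz
  have h1 : v = u + 3 * z := by linarith
  rw [hu', hv', h1]
  congr 2
  push_cast
  have h3 : (3 : ZMod 3) = 0 := rfl
  rw [h3]
  ring

/-- a factorization -/
lemma exists_fac {x : Ei} (h3 : ¬ (3 : ℤ) ∣ nr x) : ∃ P : Multiset Ei, Gd P ∧ Associated P.prod x := by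
  have hx : x ≠ 0 := by
    rintro rfl
    apply h3
    have : nr (0 : Ei) = 0 := by decide
    rw [this]
    exact dvd_zero 3
  refine ⟨UniqueFactorizationMonoid.factors x, ?_, UniqueFactorizationMonoid.factors_prod hx⟩
  exact gd_of (fun π hπ => UniqueFactorizationMonoid.prime_of_factor π hπ) (UniqueFactorizationMonoid.factors_prod hx) h3

/-- a factorization of a normalized number, exactly -/
lemma exists_fac' {x : Ei} (h3 : ¬ (3 : ℤ) ∣ nr x) (h1 : (3 : Ei) ∣ x - 1) : ∃ P : Multiset Ei, Gd P ∧ P.prod = x := by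
  obtain ⟨P, hP, hPx⟩ := exists_fac h3
  refine ⟨P.map ns, ?_, ?_⟩
  · intro π hπ
    rw [Multiset.mem_map] at hπ
    obtain ⟨ρ, hρ, rfl⟩ := hπ
    obtain ⟨h4, h5⟩ := hP ρ hρ
    exact ⟨(assoc_ns h5).prime h4, by rw [nr_ns h5]; exact h5⟩
  · rw [← ns_prod]
    obtain ⟨u, hu⟩ := hPx
    have h2 := ns_self h1
    rw [← hu, ns_mul, ns_unit u.isUnit, mul_one] at h2
    rw [h2, hu]

lemma three_dvd_iff (x : Ei) : (3 : Ei) ∣ x ↔ (3 : ℤ) ∣ x.re ∧ (3 : ℤ) ∣ x.im := by
  have h : (((3 : ℤ) : Ei)) ∣ x ↔ (3 : ℤ) ∣ x.re ∧ (3 : ℤ) ∣ x.im := int_dvd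
  rw [← h]
  norm_num

lemma nr_of_one {x : Ei} (h1 : (3 : Ei) ∣ x - 1) : ¬ (3 : ℤ) ∣ nr x := by
  intro h
  have h2 : ((nr x : ℤ) : ZMod 3) = 0 := (ZMod.intCast_zmod_eq_zero_iff_dvd _ 3).2 h
  rw [nr_mod] at h2
  rw [three_dvd_iff, QuadraticAlgebra.re_sub, QuadraticAlgebra.im_sub] at h1
  have e1 : (1 : Ei).re = 1 := rfl
  have e2 : (1 : Ei).im = 0 := rfl
  rw [e1, e2, sub_zero] at h1
  have h3 : ((x.re : ℤ) : ZMod 3) = ((1 : ℤ) : ZMod 3) := by
    rw [eq_comm, ZMod.intCast_eq_intCast_iff_dvd_sub]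
    exact h1.1
  have h4 : ((x.im : ℤ) : ZMod 3) = 0 := (ZMod.intCast_zmod_eq_zero_iff_dvd _ 3).2 h1.2
  rw [h3, h4] at h2
  revert h2
  decide

/-- the symbol of three -/
lemma GG_three_real {P Q : Multiset Ei} (hP : Gd P) (hQ : Gd Q) (h1 : (3 : Ei) ∣ P.prod - 1) (h : Q.prod = P.prod + 3) : GG P 3 = GG Q 3 := by
  refine shift hP hQ 3 (ns_self h1) (ns_self ?_) h
  rw [h]
  have e : P.prod + 3 - 1 = (P.prod - 1) + 3 := by ring
  rw [e]
  exact dvd_add h1 (dvd_refl 3)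

/-- the symbol of three -/
lemma GG_three_om {P Q : Multiset Ei} (hP : Gd P) (hQ : Gd Q) (h1 : (3 : Ei) ∣ P.prod - 1) (h : Q.prod = P.prod + 3 * w) :
    GG P 3 * GG P w = GG Q 3 * GG Q w := by
  rw [← GG_mul hP, ← GG_mul hQ]
  refine shift hP hQ (3 * w) (ns_self h1) (ns_self ?_) h
  rw [h]
  have e : P.prod + 3 * w - 1 = (P.prod - 1) + 3 * w := by ring
  rw [e]
  exact dvd_add h1 (dvd_mul_right 3 _)

/-- the symbol of three for the shifts by real multiples of nine -/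
lemma GG_nine_real {P Q : Multiset Ei} (hP : Gd P) (hQ : Gd Q) (h1 : (3 : Ei) ∣ P.prod - 1) (n : ℕ) (h : Q.prod = P.prod + 3 * n) : GG P 3 = GG Q 3 := by
  induction n generalizing Q with
  | zero =>
    rw [Nat.cast_zero, mul_zero, add_zero] at h
    exact GG_assoc hP hQ (by rw [h]) 3
  | succ n ih =>
    have h2 : (3 : Ei) ∣ (P.prod + 3 * (n : Ei)) - 1 := by
      have e : P.prod + 3 * (n : Ei) - 1 = (P.prod - 1) + 3 * n := by ring
      rw [e]
      exact dvd_add h1 (dvd_mul_right 3 _)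
    obtain ⟨R, hR, hRe⟩ := exists_fac' (nr_of_one h2) h2
    rw [ih hR hRe]
    refine GG_three_real hR hQ (by rw [hRe]; exact h2) ?_
    rw [hRe, h]
    push_cast
    ring

lemma GG_nine_om {P Q : Multiset Ei} (hP : Gd P) (hQ : Gd Q) (h1 : (3 : Ei) ∣ P.prod - 1) (n : ℕ) (h : Q.prod = P.prod + 3 * w * n) :
    GG P 3 * GG P w = GG Q 3 * GG Q w := by
  induction n generalizing Q with
  | zero =>
    rw [Nat.cast_zero, mul_zero, add_zero] at h
    rw [GG_assoc hP hQ (by rw [h]) 3, GG_assoc hP hQ (by rw [h]) w]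
  | succ n ih =>
    have h2 : (3 : Ei) ∣ (P.prod + 3 * w * (n : Ei)) - 1 := by
      have e : P.prod + 3 * w * (n : Ei) - 1 = (P.prod - 1) + 3 * (w * n) := by ring
      rw [e]
      exact dvd_add h1 (dvd_mul_right 3 _)
    obtain ⟨R, hR, hRe⟩ := exists_fac' (nr_of_one h2) h2
    rw [ih hR hRe]
    refine GG_three_om hR hQ (by rw [hRe]; exact h2) ?_
    rw [hRe, h]
    push_cast
    ring

lemma three_add {x : Ei} (h1 : (3 : Ei) ∣ x - 1) (y : Ei) : (3 : Ei) ∣ (x + 3 * y) - 1 := by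
  have e : x + 3 * y - 1 = (x - 1) + 3 * y := by ring
  rw [e]
  exact dvd_add h1 (dvd_mul_right 3 _)

/-- integral shifts in the real direction -/
lemma real_int {P Q : Multiset Ei} (hP : Gd P) (hQ : Gd Q) (h1 : (3 : Ei) ∣ P.prod - 1) (n : ℤ) (h : Q.prod = P.prod + 3 * n) : GG P 3 = GG Q 3 := by
  rcases Int.eq_nat_or_neg n with ⟨k, hk | hk⟩
  · apply GG_nine_real hP hQ h1 k
    rw [h, hk]
    push_cast
    rfl
  · symm
    apply GG_nine_real hQ hP (by rw [h]; exact three_add h1 _) k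
    rw [h, hk]
    push_cast
    ring

lemma om_int {P Q : Multiset Ei} (hP : Gd P) (hQ : Gd Q) (h1 : (3 : Ei) ∣ P.prod - 1) (n : ℤ) (h : Q.prod = P.prod + 3 * (w * n)) :
    GG P 3 * GG P w = GG Q 3 * GG Q w := by
  rcases Int.eq_nat_or_neg n with ⟨k, hk | hk⟩
  · apply GG_nine_om hP hQ h1 k
    rw [h, hk]
    push_cast
    ring
  · symm
    apply GG_nine_om hQ hP (by rw [h]; exact three_add h1 _) k
    rw [h, hk]
    push_cast
    ring

lemma ei_form (y : Ei) : y = (y.re : Ei) + w * (y.im : Ei) := by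
  ext
  · rw [QuadraticAlgebra.re_add, mul_re]
    simp [w]
  · rw [QuadraticAlgebra.im_add, mul_im]
    simp [w]

/-- **The symbol of three depends on the residue modulo nine (normalized numbers).** -/
lemma nine_norm {P Q : Multiset Ei} (hP : Gd P) (hQ : Gd Q) (h1 : (3 : Ei) ∣ P.prod - 1) (y : Ei) (h : Q.prod = P.prod + 9 * y) : GG P 3 = GG Q 3 := by
  have h2 : (3 : Ei) ∣ (P.prod + 3 * ((3 * y.re : ℤ) : Ei)) - 1 := three_add h1 _
  obtain ⟨R, hR, hRe⟩ := exists_fac' (nr_of_one h2) h2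
  have h3 := real_int hP hR h1 (3 * y.re) hRe
  have h4 : Q.prod = R.prod + 3 * (w * ((3 * y.im : ℤ) : Ei)) := by
    rw [hRe, h]
    conv_lhs => rw [ei_form y]
    push_cast
    ring
  have h5 := om_int hR hQ (by rw [hRe]; exact h2) (3 * y.im) h4
  have h6 := GG_w_congr hR hQ (w * (y.im : Ei)) (by
    rw [h4]
    push_cast
    ring)
  rw [h6] at h5
  rw [h3]
  exact mul_right_cancel₀ (GG_ne_zero_w hQ) h5

/-- **The symbol of three depends on the residue modulo nine.** -/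
theorem nine {P Q : Multiset Ei} {α β y : Ei} (hP : ∀ π ∈ P, Prime π) (hQ : ∀ π ∈ Q, Prime π) (hPa : Associated P.prod α) (hQb : Associated Q.prod β)
    (h3 : ¬ (3 : ℤ) ∣ nr α) (hβ : β = α + 9 * y) : GG P 3 = GG Q 3 := by
  have h3β : ¬ (3 : ℤ) ∣ nr β := by
    obtain ⟨z, hz⟩ := nr_add α y
    rw [hβ, hz]
    omega
  have hP' := gd_of hP hPa h3
  have hQ' := gd_of hQ hQb h3β
  have hep : ep β = ep α := by
    apply ep_per
    rw [hβ]
    exact ⟨3 * y, by ring⟩
  have hα1 : (3 : Ei) ∣ ns α - 1 := ns_one h3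
  have hβ1 : (3 : Ei) ∣ ns β - 1 := ns_one h3β
  have hnα : ¬ (3 : ℤ) ∣ nr (ns α) := by rw [nr_ns h3]; exact h3
  have hnβ : ¬ (3 : ℤ) ∣ nr (ns β) := by rw [nr_ns h3β]; exact h3β
  obtain ⟨R, hR, hRe⟩ := exists_fac' hnα hα1
  obtain ⟨T, hT, hTe⟩ := exists_fac' hnβ hβ1
  rw [GG_assoc hP' hR (by rw [hRe]; exact hPa.trans (assoc_ns h3)), GG_assoc hQ' hT (by rw [hTe]; exact hQb.trans (assoc_ns h3β))]
  refine nine_norm hR hT (by rw [hRe]; exact hα1) (star (ep α) * y) ?_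
  rw [hTe, hRe]
  unfold ns
  rw [hep, hβ]
  ring

end Pool.Agent.H18.GA
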